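import Pool.Agent.Helper80.CA.NoFour
import Pool.Agent.Helper78.CT.SmallFace

set_option autoImplicit false

/-!
Project Cantoni (MP_16e137_co), block B (deduction): no face of length 5, and the bound.
-/

namespace Pool.Agent.Helper80.CA
open Pool.Agent.Helper17.CT Pool.Agent.Helper66.CA Function

variable {D : Type} {M : CMap D} {γ : D → Fin 3}

theorem face_f_eq [Finite D] (M : CMap D) (v : D) : M.Face (M.f v) = M.Face v := by
  funext x
  apply propext
  constructor
  · intro h
    exact face_trans M (face_f M v) h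
  · intro h
    exact face_trans M (face_symm M (face_f M v)) h

theorem no_five [Finite D] (C : Ctx M γ) (d : D) : minimalPeriod M.f d ≠ 5 := by
  classical
  intro hd
  obtain ⟨r, q1, q2, q3, q4, q5⟩ := pattern5 M γ C.hT d hd
  have hper : minimalPeriod M.f ((M.f)^[r] d) = 5 := by rw [period_iter, hd]
  set v := (M.f)^[r] d with hv
  set t : ℕ → D := fun i => (M.f)^[i] v with ht
  have ht5 : t 5 = v := by
    have : (M.f)^[minimalPeriod M.f v] v = v := iterate_minimalPeriod
    rw [hper] at this
    exact this
  have hper' : minimalPeriod M.f (M.f v) = 5 := by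
    rw [← hper]; exact period_iter M v 1
  have hss : ∀ i, M.s (M.s (t (i + 1))) = M.a (t i) := fun i => ss_succ M v i
  have hface : ∀ i, M.Face v (t i) := fun i => ⟨i, rfl⟩
  have hveq : ∀ i, M.VEq (t (i + 1)) (M.a (t i)) := fun i => Or.inr (Or.inr (hss i).symm)
  set b := γ (M.f v) with hb
  set c := γ v with hc
  set a := γ (t 2) with ha
  have g1 : γ (t 1) = b := rfl
  have g3 : γ (t 3) = b := q1.symm
  have g4 : γ (t 4) = a := q2.symm
  have hcb : c ≠ b := q3
  have hca : c ≠ a := q4
  have hba : b ≠ a := q5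
  have hUb := C.hT.ham b
  have hUa := C.hT.ham a
  obtain ⟨φ, hφ, hUφ⟩ := C.side b
  obtain ⟨χ, hχ, hUχ⟩ := C.side a
  obtain ⟨P, hP, p0, p1, p2, p3, p4, hcut, hsame⟩ := split M C.hp C.hb _ hUb φ hφ hUφ v 5
    (Or.inr rfl) hper (decide_eq_true hcb) (decide_eq_false (not_not.mpr rfl))
    (decide_eq_true hba.symm) (decide_eq_false (not_not.mpr g3))
    (fun _ => decide_eq_true (by
      have : γ ((M.f)^[4] v) = a := g4
      rw [this]; exact hba.symm))
  obtain ⟨R, hR, r0, r1, r2, r3, r4, hcut', -⟩ := split M C.hp C.hb _ hUa χ hχ hUχ (M.f v) 5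
    (Or.inr rfl) hper' (decide_eq_true hba) (decide_eq_false (not_not.mpr rfl))
    (decide_eq_true (by
      have : γ ((M.f)^[2] (M.f v)) = b := g3
      rw [this]; exact hba)) (decide_eq_false (not_not.mpr g4))
    (fun _ => decide_eq_true (by
      have h5 : (M.f)^[4] (M.f v) = v := ht5
      rw [h5]; exact hca))
  have hct : ∀ i, i < 5 → i ≠ 0 → γ ((M.f)^[i] v) ≠ c := by
    intro i hi hi0
    interval_cases i
    · exact absurd rfl hi0
    · exact hcb.symm
    · exact hca.symm
    · rw [show γ ((M.f)^[3] v) = b from g3]; exact hcb.symm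
    · rw [show γ ((M.f)^[4] v) = a from g4]; exact hca.symm
  have hfv : M.Face (M.f v) = M.Face v := face_f_eq M v
  -- crossing `P` and crossing `R` is the same for faces not adjacent to `v`
  have star1 : ∀ w x y, NonAdj M v w → M.Face w x → M.Face w y → P x = true → P y = false →
      (∃ x, M.Face w x ∧ R x = true) ∧ ∃ y, M.Face w y ∧ R y = false := by
    intro w x y hNA hx hy hPx hPy
    have h1 := intl_of_cross M _ hUb v w P hP hcut x y hx hy hPx hPy
    rw [C.iff (a := b) (b := a) (c := c) hba hcb.symm hca.symm hper (by norm_num) (by norm_num)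
      hNA 0 hct] at h1
    refine cross_of_intl M _ hUa (M.f v) w 5 (Or.inr rfl) hper' (decide_eq_true hba) ?_ R hR r0
      r1 r2 r3 r4 hcut' ?_ ?_
    · intro _
      apply decide_eq_true
      have h5 : (M.f)^[4] (M.f v) = v := ht5
      rw [h5]; exact hca
    · intro x y hx hy
      rw [hfv] at hx
      exact hNA x y hx hy
    · rw [hfv]; exact h1
  have star2 : ∀ w x y, NonAdj M v w → M.Face w x → M.Face w y → R x = true → R y = false →
      (∃ x, M.Face w x ∧ P x = true) ∧ ∃ y, M.Face w y ∧ P y = false := by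
    intro w x y hNA hx hy hRx hRy
    have h1 := intl_of_cross M _ hUa (M.f v) w R hR hcut' x y hx hy hRx hRy
    rw [hfv, ← C.iff (a := b) (b := a) (c := c) hba hcb.symm hca.symm hper (by norm_num)
      (by norm_num) hNA 0 hct] at h1
    refine cross_of_intl M _ hUb v w 5 (Or.inr rfl) hper (decide_eq_true hcb) ?_ P hP p0
      p1 p2 p3 p4 hcut hNA h1
    intro _
    apply decide_eq_true
    have : γ ((M.f)^[4] v) = a := g4
    rw [this]; exact hba.symm
  -- the chord `e` on the face behind `t 2`
  have hP2 : P (M.a (t 2)) = false := by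
    rw [← hss 2, hP, hP]; exact p3
  have hPs2 : P (M.s (t 2)) = true := by rw [hP]; exact p2
  obtain ⟨e, he1, he2, he3⟩ := exists_out M hP (face_as M (t 2)) (face_refl M (M.a (t 2)))
    hPs2 hP2
  have heb : γ e = b := by
    by_contra hcon
    rcases hcut e (decide_eq_true hcon) he2 he3 with h | h
    · rw [h] at he1
      have h6 := faces2 M C.hp C.c3 C.hb (face_symm M (hface 2)) he1
      have h7 : (M.f)^[2] v = (M.f)^[0] v := h6
      have h8 := iterate_injOn_Iio_minimalPeriod (f := M.f) (x := v)
        (show 2 ∈ Set.Iio (minimalPeriod M.f v) by rw [hper]; simp)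
        (show 0 ∈ Set.Iio (minimalPeriod M.f v) by rw [hper]; simp) h7
      omega
    · rw [h] at he1
      have h6 := C.hb (M.a (t 2))
      rw [M.a2] at h6
      exact h6 he1
  have hNA : NonAdj M v (M.a e) := by
    by_contra hcon
    rcases adj_cases M hcon with h | ⟨x, hx, h⟩
    · have h6 : M.Face (M.a e) (t 2) := face_trans M h (hface 2)
      have h7 : M.Face (M.a (M.a e)) (M.a (t 2)) := by
        rw [M.a2]; exact face_symm M he1
      have h8 := faces2 M C.hp C.c3 C.hb h6 h7
      have h9 : e = M.a (t 2) := by rw [← h8, M.a2]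
      rw [h9, hP2] at he2
      exact Bool.noConfusion he2
    · rcases two_nb M C.hp C.h4 C.hb (face_trans M (face_symm M (hface 2)) hx)
        (face_symm M he1) h with ⟨h1, h2⟩ | ⟨h1, h2⟩
      · have h3 : x = t 3 := by
          rw [h1]
          exact (iterate_succ_apply' M.f 2 v).symm
        have h4 := (C.leg x).1
        rw [h3, g3, ← C.hT.acl, ← h3, ← h2] at h4
        exact h4 heb
      · have h4 := (C.leg (t 2)).2
        rw [hss 1, C.hT.acl, g1, ← h2] at h4
        exact h4 heb
  have hPse : P (M.s e) = true := by rw [hP]; exact he2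
  obtain ⟨⟨x1, hx1, hx1'⟩, ⟨x2, hx2, hx2'⟩⟩ := star1 (M.a e) (M.s e) (M.a e) hNA (face_as M e)
    (face_refl M _) hPse he3
  -- the side of the face of `a e`
  have hφz : φ (M.a e) ≠ φ v := by
    intro h
    have h6 := hsame (M.s e) (M.a e) (face_symm M (face_as M e))
      (by rw [← face_eq M hφ (face_as M e), h])
      (fun i => hNA _ _ (hface i) (face_as M e)) (fun i => hNA _ _ (hface i) (face_refl M _))
    rw [hPse, he3] at h6
    exact Bool.noConfusion h6
  have key : ∀ g, M.Face (M.a e) g → R g ≠ R (M.a g) →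
      M.Face (M.a g) (M.a (t 1)) ∨ M.Face (M.a g) (M.a (t 3)) := by
    intro g hg hRg
    have hga : γ g = a := by
      by_contra hcon
      cases hRg1 : R g with
      | true =>
        have h6 : R (M.a g) = false := by
          rw [hRg1] at hRg
          simpa using hRg.symm
        rcases hcut' g (decide_eq_true hcon) hRg1 h6 with h | h
        · rw [h] at hg
          exact hNA _ _ (hface 2) hg (hveq 1)
        · rw [h] at hg
          exact hNA (t 3) (t 3) (hface 3) hg (Or.inl rfl)
      | false =>
        have h6 : R (M.a g) = true := by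
          rw [hRg1] at hRg
          simpa using hRg.symm
        have hcon' : γ (M.a g) ≠ a := by rw [C.hT.acl]; exact hcon
        rcases hcut' (M.a g) (decide_eq_true hcon') h6 (by rw [M.a2]; exact hRg1) with h | h
        · have h7 : g = t 1 := by
            have := congrArg M.a h
            rw [M.a2, M.a2] at this
            exact this
          rw [h7] at hg
          exact hNA _ _ (hface 1) hg (Or.inl rfl)
        · have h7 : g = M.a (t 3) := by
            have := congrArg M.a h
            rw [M.a2] at this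
            exact this
          rw [h7] at hg
          exact hNA _ _ (hface 4) hg (hveq 3)
    have hφg : φ g = φ (M.a e) := (face_eq M hφ hg).symm
    have hφag : φ (M.a g) = φ v := by
      have h6 := hUφ g
      rw [hga] at h6
      have h7 : decide (a ≠ b) = true := decide_eq_true hba.symm
      rw [h7, hφg] at h6
      revert h6 hφz
      cases φ (M.a e) <;> cases φ (M.a g) <;> cases φ v <;> simp
    have hadj : ¬ NonAdj M v (M.a g) := by
      intro hNA'
      have hRs : R (M.s g) = R g := hR g
      obtain ⟨⟨y1, hy1, hy1'⟩, ⟨y2, hy2, hy2'⟩⟩ : (∃ x, M.Face (M.a g) x ∧ P x = true) ∧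
          ∃ y, M.Face (M.a g) y ∧ P y = false := by
        cases hRg1 : R g with
        | true =>
          apply star2 (M.a g) (M.s g) (M.a g) hNA' (face_as M g) (face_refl M _)
          · rw [hRs, hRg1]
          · rw [hRg1] at hRg
            simpa using hRg.symm
        | false =>
          apply star2 (M.a g) (M.a g) (M.s g) hNA' (face_refl M _) (face_as M g)
          · rw [hRg1] at hRg
            simpa using hRg.symm
          · rw [hRs, hRg1]
      have h6 := hsame y1 y2 (face_trans M (face_symm M hy1) hy2)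
        (by rw [← face_eq M hφ hy1, hφag]) (fun i => hNA' _ _ (hface i) hy1)
        (fun i => hNA' _ _ (hface i) hy2)
      rw [hy1', hy2'] at h6
      exact Bool.noConfusion h6
    rcases adj_cases M hadj with h | ⟨x, hx, h⟩
    · exfalso
      obtain ⟨i, hi, hi'⟩ := face_iter M 5 hper (by norm_num) (face_symm M h)
      have h7 : g = M.a (t i) := by
        rw [← M.a2 g, ← hi']
      rw [h7] at hg
      exact hNA _ _ (hface (i + 1)) hg (hveq i)
    · obtain ⟨i, hi, hi'⟩ := face_iter M 5 hper (by norm_num) hx
      have h7 : γ x = b := by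
        have h8 : φ (M.a x) = φ v := by rw [← face_eq M hφ h, hφag]
        have h9 : φ x = φ v := (face_eq M hφ hx).symm
        have h10 := hUφ x
        rw [h8, h9] at h10
        simpa using h10
      interval_cases i
      · exfalso
        apply hcb
        rw [← h7, ← hi']; rfl
      · left
        rw [← hi'] at h
        exact h
      · exfalso
        apply hba
        rw [← h7, ← hi']
      · right
        rw [← hi'] at h
        exact h
      · exfalso
        apply hba
        rw [← h7, ← hi']
        exact g4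
  obtain ⟨g, hg, hg1, hg2⟩ := exists_out M hR hx1 hx2 hx1' hx2'
  obtain ⟨g', hg', hg1', hg2'⟩ := exists_in M hR hx1 hx2 hx1' hx2'
  have k1 := key g hg (by rw [hg1, hg2]; decide)
  have k2 := key g' hg' (by rw [hg1', hg2']; decide)
  have hne : ∀ x, M.Face (M.a g) x → M.Face (M.a g') x → False := by
    intro x h h'
    have h6 := faces2 M C.hp C.c3 C.hb (face_trans M (face_symm M hg) hg')
      (face_trans M h (face_symm M h'))
    rw [h6, hg1'] at hg1
    exact Bool.noConfusion hg1
  have hex : (∃ g1, M.Face (M.a e) g1 ∧ M.Face (M.a g1) (M.a (t 1))) ∧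
      ∃ g3, M.Face (M.a e) g3 ∧ M.Face (M.a g3) (M.a (t 3)) := by
    rcases k1 with k1 | k1 <;> rcases k2 with k2 | k2
    · exact absurd k2 (fun h => hne _ k1 h)
    · exact ⟨⟨g, hg, k1⟩, ⟨g', hg', k2⟩⟩
    · exact ⟨⟨g', hg', k2⟩, ⟨g, hg, k1⟩⟩
    · exact absurd k2 (fun h => hne _ k1 h)
  obtain ⟨⟨a1, ha1, ha1'⟩, ⟨a3, ha3, ha3'⟩⟩ := hex
  -- the face behind `t 2` has length 4
  have e1 : e = M.f (M.s (t 2)) := by
    have h1 : M.Face (M.a (M.s (t 2))) (M.a a1) := by
      have h6 := face_as M (M.s (t 2))
      rw [hss 1] at h6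
      exact face_trans M h6 (face_symm M ha1')
    have h2 : M.Face (M.a (M.a a1)) (M.a e) := by
      rw [M.a2]; exact face_symm M ha1
    have h3 : M.Face (M.a (M.a e)) (M.s (t 2)) := by
      rw [M.a2]
      exact face_trans M (face_symm M he1) (face_as M (t 2))
    rcases faces3 M C.hp C.h4 C.hb h1 h2 h3 with ⟨h, -⟩ | ⟨h, -⟩
    · exfalso
      rw [hss 1] at h
      have h7 := congrArg M.a h
      rw [M.a2, M.a2] at h7
      rw [h7] at ha1
      exact hNA _ _ (hface 1) ha1 (Or.inl rfl)
    · rw [M.a2] at h
      exact h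
  have e2 : M.a (M.s (t 3)) = M.f e := by
    have h2 : M.Face (M.a a3) (M.s (t 3)) := face_trans M ha3' (face_as M (t 3))
    have h3 : M.Face (M.a (M.s (t 3))) e := by
      have h6 := face_as M (M.s (t 3))
      rw [hss 2] at h6
      exact face_trans M h6 he1
    rcases faces3 M C.hp C.h4 C.hb ha3 h2 h3 with ⟨-, h⟩ | ⟨h, -⟩
    · exfalso
      have h7 : t 3 = a3 := M.hs_inj h
      rw [← h7] at ha3
      exact hNA _ _ (hface 3) ha3 (Or.inl rfl)
    · exact h
  have e0 : M.f (M.a (t 2)) = M.s (t 2) := by rw [CMap.f, M.a2]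
  have e3 : M.f (M.a (M.s (t 3))) = M.a (t 2) := by
    rw [CMap.f, M.a2]; exact hss 2
  have hper4 : IsPeriodicPt M.f 4 (M.a (t 2)) := by
    show (M.f)^[4] (M.a (t 2)) = M.a (t 2)
    simp only [iterate_succ, iterate_zero, comp_apply, id]
    rw [e0, ← e1, ← e2, e3]
  have h10 := hper4.minimalPeriod_le (by norm_num)
  have h11 := face_ge M C.c3 C.h4 C.hD (M.a (t 2))
  exact no_four C (M.a (t 2)) (by omega)

theorem card_le [Finite D] (hp : M.Planar) (hT : M.Tri γ) (h4 : M.Cyc4)
    (hae : ∀ v0 w0 : D, minimalPeriod M.f v0 ≤ 5 → NonAdj M v0 w0 → Even (NI M v0 w0)) :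
    Nat.card D ≤ 12 := by
  by_contra hcon
  push Not at hcon
  have C : Ctx M γ := ⟨hp, hT, h4, hcon, hae⟩
  have hne : Nonempty D := by
    by_contra hne
    rw [not_nonempty_iff] at hne
    rw [Nat.card_of_isEmpty] at hcon
    omega
  obtain ⟨d, hd⟩ := small_face M hp
  have h1 := face_ge M C.c3 h4 hcon d
  have h2 := no_four C d
  have h3 := no_five C d
  omega

end Pool.Agent.Helper80.CA
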