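import Pool.Agent.Helper66.CA.Intl

set_option autoImplicit false

/-!
Project Cantoni (MP_16e137_co), block B (deduction), module CB-6: counting in a map with exactly
three Hamilton cycles.

PROOF. By `hT.all` every Hamilton cycle is one of `U_i := fun d => decide (γ d ≠ i)`, `i : Fin 3`, and
these are Hamilton cycles (`hT.ham`) and pairwise different (at any dart `d0` the three darts
`d0, s d0, s (s d0)` have three different colours by `hT.prop` (and `s3`), so for `i ≠ j` the dart of
colour `i` is in `U_j` and not in `U_i`; `D` is not empty because of `w0`). So the subtype in `NI` is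
in bijection with `{i : Fin 3 // Intl M (M.Face v0) (M.Face w0) (U_i)}` and its cardinality is even,
so it is 0 or 2. As `c` is not in this set, `a` is in it if and only if `b` is in it (`a, b, c` are the
three elements of `Fin 3`).
-/

namespace Pool.Agent.Helper80.CA
open Pool.Agent.Helper17.CT Pool.Agent.Helper66.CA Function

variable {D : Type} (M : CMap D)

/-- If only the colour `a` is interlaced, there is exactly one interlaced Hamilton cycle. -/
private theorem intl_aux (γ : D → Fin 3) (hT : M.Tri γ) (v0 w0 : D)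
    (hE : Even (NI M v0 w0)) (a b c : Fin 3) (hab : a ≠ b) (hac : a ≠ c) (hbc : b ≠ c)
    (hc : ¬ Intl M (M.Face v0) (M.Face w0) (fun d => decide (γ d ≠ c)))
    (ha : Intl M (M.Face v0) (M.Face w0) (fun d => decide (γ d ≠ a))) :
    Intl M (M.Face v0) (M.Face w0) (fun d => decide (γ d ≠ b)) := by
  by_contra hb
  have key : ∀ U : {U : D → Bool // M.IsHam U ∧ Intl M (M.Face v0) (M.Face w0) U},
      U.1 = fun d => decide (γ d ≠ a) := by
    rintro ⟨U, hU, hI⟩
    obtain ⟨i, hi⟩ := hT.all U hU
    have h3 : i = a ∨ i = b ∨ i = c := by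
      have h4 : ∀ a b c i : Fin 3, a ≠ b → a ≠ c → b ≠ c → (i = a ∨ i = b ∨ i = c) := by decide
      exact h4 a b c i hab hac hbc
    rcases h3 with h | h | h
    · rw [h] at hi
      exact hi
    · rw [h] at hi
      rw [hi] at hI
      exact absurd hI hb
    · rw [h] at hi
      rw [hi] at hI
      exact absurd hI hc
  have hs : Subsingleton {U : D → Bool // M.IsHam U ∧ Intl M (M.Face v0) (M.Face w0) U} :=
    ⟨fun x y => Subtype.ext ((key x).trans (key y).symm)⟩
  have h1 : NI M v0 w0 = 1 := by
    unfold NI
    exact Nat.card_of_subsingleton ⟨_, hT.ham a, ha⟩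
  rw [h1] at hE
  exact absurd hE (by decide)

theorem intl_iff [Finite D] (γ : D → Fin 3) (hT : M.Tri γ) (v0 w0 : D)
    (hE : Even (NI M v0 w0)) (a b c : Fin 3) (hab : a ≠ b) (hac : a ≠ c) (hbc : b ≠ c)
    (hc : ¬ Intl M (M.Face v0) (M.Face w0) (fun d => decide (γ d ≠ c))) :
    Intl M (M.Face v0) (M.Face w0) (fun d => decide (γ d ≠ a)) ↔
      Intl M (M.Face v0) (M.Face w0) (fun d => decide (γ d ≠ b)) :=
  ⟨intl_aux M γ hT v0 w0 hE a b c hab hac hbc hc,
    intl_aux M γ hT v0 w0 hE b a c hab.symm hbc hac hc⟩

end Pool.Agent.Helper80.CA
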