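import Pool.Agent.Helper66.CA.Intl
import Pool.Agent.Helper63.CT.M10

set_option autoImplicit false

/-!
Project Cantoni (MP_16e137_co), block B (deduction), module CB-4: cuts of Hamilton cycles, and: if the
face of `w0` has corners on both sides of `P`, then `U` is interlaced.

PROOF of `cut_two`: the number of darts of `U` leaving `X` is even (`ct10_cut_even` with `even_of_ham`)
and positive (`ct10_cross`: take darts of `U` at the vertices of `x` and `y`, they exist by `hU.one`,
and `X` is constant on vertices).
PROOF of `intl_of_cross`: let `J` be a vertex set without darts of the face of `v0` and with all darts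
of the face of `w0`. `J1 = J ∩ P`, `J2 = J \ P` are vertex sets, `x ∈ J1`, `y ∈ J2`, `v0` in neither.
By `cut_two` each is left by at least two darts of `U`. If `d` in `U` leaves `J1` then `J d`, `P d` and
`J (a d) = false`: otherwise `J (a d)`, `P (a d) = false`, so by `hcut` `d = a v0` or `d = f^[2] v0`;
but `J (f^[2] v0) = false` contradicts `J d`, and `J (a (a v0)) = J v0 = false` contradicts `J (a d)`.
If `d` in `U` leaves `J2` then `J (a d) = false`: otherwise `J (a d)`, `P (a d)`, `P d = false`, apply
`hcut` to `a d` (`U (a d)`, `P (a d)`, `P (a (a d)) = false`): `a d = a v0`, so `d = v0`, `J d = false`,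
contradiction; or `a d = f^[2] v0`, `J (a d) = false`, contradiction. So the two sets of darts are
disjoint (by `P d`) and both are contained in the set of the darts of `U` leaving `J`: at least 4.
-/

namespace Pool.Agent.Helper80.CA
open Pool.Agent.Helper17.CT Pool.Agent.Helper66.CA Function

variable {D : Type} (M : CMap D)

theorem cut_two [Finite D] (U : D → Bool) (hU : M.IsHam U) (X : D → Bool) (hX : M.VSet X) (x y : D)
    (hx : X x = true) (hy : X y = false) :
    2 ≤ Nat.card {d : D // U d = true ∧ X d = true ∧ X (M.a d) = false} := by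
  classical
  have hloc : ∀ v : D, ∃ w, X w = X v ∧ U w = true := by
    intro v
    rcases hU.one v with ⟨_, h2, _⟩ | ⟨h1, _, _⟩ | ⟨h1, _, _⟩
    · exact ⟨M.s v, hX v, h2⟩
    · exact ⟨v, rfl, h1⟩
    · exact ⟨v, rfl, h1⟩
  obtain ⟨x', hx', hx''⟩ := hloc x
  obtain ⟨y', hy', hy''⟩ := hloc y
  rw [hx] at hx'
  rw [hy] at hy'
  obtain ⟨d, hd1, hd2⟩ := ct10_cross M U X hX (hU.conn x' y' hx'' hy'') hx' hy'
  have he := ct10_cut_even M U (even_of_ham M U hU) X hX
  have hc : Nat.card {d : D // (X d = true ∧ X (M.a d) = false) ∧ U d = true} =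
      Nat.card {d : D // U d = true ∧ X d = true ∧ X (M.a d) = false} := by
    refine Nat.card_congr (Equiv.subtypeEquivRight ?_)
    intro d
    tauto
  rw [hc] at he
  have hpos : 0 < Nat.card {d : D // U d = true ∧ X d = true ∧ X (M.a d) = false} := by
    have : Nonempty {d : D // U d = true ∧ X d = true ∧ X (M.a d) = false} :=
      ⟨⟨d, hd2, hd1⟩⟩
    exact Nat.card_pos
  obtain ⟨r, hr⟩ := he
  omega

theorem intl_of_cross [Finite D] (U : D → Bool) (hU : M.IsHam U) (v0 w0 : D)
    (P : D → Bool) (hP : M.VSet P)
    (hcut : ∀ d, U d = true → P d = true → P (M.a d) = false →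
      d = M.a v0 ∨ d = (M.f)^[2] v0)
    (x y : D) (hx : M.Face w0 x) (hy : M.Face w0 y) (hPx : P x = true) (hPy : P y = false) :
    Intl M (M.Face v0) (M.Face w0) U := by
  classical
  intro J hJ hA hB
  have hv0 : J v0 = false := hA v0 ⟨0, rfl⟩
  have hv2 : J ((M.f)^[2] v0) = false := hA _ ⟨2, rfl⟩
  let J1 : D → Bool := fun d => J d && P d
  let J2 : D → Bool := fun d => J d && !P d
  have hJ1 : M.VSet J1 := by
    intro d
    simp only [J1, hJ d, hP d]
  have hJ2 : M.VSet J2 := by
    intro d
    simp only [J2, hJ d, hP d]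
  have c1 := cut_two M U hU J1 hJ1 x v0 (by simp [J1, hB x hx, hPx]) (by simp [J1, hv0])
  have c2 := cut_two M U hU J2 hJ2 y v0 (by simp [J2, hB y hy, hPy]) (by simp [J2, hv0])
  -- key facts
  have k1 : ∀ d, U d = true → J1 d = true → J1 (M.a d) = false →
      (U d = true ∧ J d = true ∧ J (M.a d) = false) ∧ P d = true := by
    intro d hUd h1 h2
    simp only [J1, Bool.and_eq_true, Bool.and_eq_false_iff] at h1 h2
    refine ⟨⟨hUd, h1.1, ?_⟩, h1.2⟩
    by_contra hJa
    have hJa' : J (M.a d) = true := by simpa using hJa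
    have hPa : P (M.a d) = false := by
      rcases h2 with h2 | h2
      · rw [hJa'] at h2; exact absurd h2 (by decide)
      · exact h2
    rcases hcut d hUd h1.2 hPa with h | h
    · rw [h, M.a2, hv0] at hJa'
      exact absurd hJa' (by decide)
    · rw [h, hv2] at h1
      exact absurd h1.1 (by decide)
  have k2 : ∀ d, U d = true → J2 d = true → J2 (M.a d) = false →
      (U d = true ∧ J d = true ∧ J (M.a d) = false) ∧ P d = false := by
    intro d hUd h1 h2
    simp only [J2, Bool.and_eq_true, Bool.and_eq_false_iff, Bool.not_eq_true',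
      Bool.not_eq_false'] at h1 h2
    refine ⟨⟨hUd, h1.1, ?_⟩, h1.2⟩
    by_contra hJa
    have hJa' : J (M.a d) = true := by simpa using hJa
    have hPa : P (M.a d) = true := by
      rcases h2 with h2 | h2
      · rw [hJa'] at h2; exact absurd h2 (by decide)
      · exact h2
    rcases hcut (M.a d) (by rw [hU.acl, hUd]) hPa (by rw [M.a2]; exact h1.2) with h | h
    · have h' : d = v0 := by
        have := congrArg M.a h
        rwa [M.a2, M.a2] at this
      rw [h', hv0] at h1
      exact absurd h1.1 (by decide)
    · rw [h, hv2] at hJa'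
      exact absurd hJa' (by decide)
  let f : {d : D // U d = true ∧ J1 d = true ∧ J1 (M.a d) = false} ⊕
      {d : D // U d = true ∧ J2 d = true ∧ J2 (M.a d) = false} →
      {d : D // U d = true ∧ J d = true ∧ J (M.a d) = false} := fun z =>
    match z with
    | Sum.inl d => ⟨d.1, (k1 d.1 d.2.1 d.2.2.1 d.2.2.2).1⟩
    | Sum.inr d => ⟨d.1, (k2 d.1 d.2.1 d.2.2.1 d.2.2.2).1⟩
  have hf : Injective f := by
    rintro (d | d) (e | e) h
    · have h' : d.1 = e.1 := by
        have h2 := congrArg Subtype.val h
        exact h2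
      exact congrArg Sum.inl (Subtype.ext h')
    · have h' : d.1 = e.1 := congrArg Subtype.val h
      have p1 := (k1 d.1 d.2.1 d.2.2.1 d.2.2.2).2
      have p2 := (k2 e.1 e.2.1 e.2.2.1 e.2.2.2).2
      rw [h', p2] at p1
      exact absurd p1 (by decide)
    · have h' : d.1 = e.1 := congrArg Subtype.val h
      have p1 := (k2 d.1 d.2.1 d.2.2.1 d.2.2.2).2
      have p2 := (k1 e.1 e.2.1 e.2.2.1 e.2.2.2).2
      rw [h', p2] at p1
      exact absurd p1 (by decide)
    · have h' : d.1 = e.1 := by
        have h2 := congrArg Subtype.val h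
        exact h2
      exact congrArg Sum.inr (Subtype.ext h')
  have hle := Nat.card_le_card_of_injective f hf
  rw [Nat.card_sum] at hle
  omega

end Pool.Agent.Helper80.CA
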