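import Pool.Agent.Helper17.CT.Defs

set_option autoImplicit false

/-!
Project Cantoni (MP_16e137_co), block B (deduction), module CB-1: the fundamental cycle of a chord
of a Hamilton cycle.

PROOF. `U` Hamilton. Every vertex has exactly two darts of `U` (`hU.one`). For `d` with `U d` let
`m d` be the other dart of `U` at the vertex of `d` (`m d = s d` if `U (s d)`, else `s (s d)`);
`m (m d) = d`, `m d ≠ d`, `U (m d)`. Let `nu d = m (a d)`; `nu` is a bijection of `U` onto itself
with inverse `d ↦ a (m d)`, and `m (nu d) = a d`; so `m (nu^i d) = nu^(-i) (m d)` (from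
`m (nu x) = a x = nu^(-1) (m x)`).
(1) For `d` in `U`: `m d ≠ nu^i d` for all `i : ℕ` (and `i : ℤ`). [If `i = 2 j` then
`m (nu^j d) = nu^(-j) (m d) = nu^j d`, but `m` has no fixed point; if `i = 2 j + 1` then
`m (nu^(j+1) d) = nu^(-(j+1)) (m d) = nu^j d`, and `m (nu (nu^j d)) = a (nu^j d)`, so `a` has a fixed
point.]
(2) The set `W = {e | e or m e is some nu^i d}` is closed under `Step` inside `U` and contains `d`;
so every dart of `U` is in `W` (use `hU.conn`).
`k` is not in `U`, so `k` and `a k` are at different vertices (by `One` exactly one dart at a vertex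
is not in `U`). Let `d1 = s k` (in `U`, at the vertex of `k`) and `e = s (a k)` (in `U`, at the vertex
of `a k`). By (2) there is a least `j` such that `nu^j d1` is at the vertex of `a k` (that is
`M.VEq (a k) (nu^j d1)`); `j ≥ 1`. Put
  `Z d := d = k ∨ d = a k ∨ ∃ i < j, d = nu^i d1 ∨ d = a (nu^i d1)`.
`Z (a d) = Z d` is clear. Evenness at a vertex `y` with `U`-darts `x`, `m x` and third dart `c`:
* `y` is not the vertex of `k` or `a k`: `Z c = false` (`c` is not in `U`) and `Z x ↔ Z (m x)`: if
  `x = nu^i d1`, `i < j`, then `i ≥ 1` and `m x = a (nu^(i-1) d1)`; if `x = a (nu^i d1)` then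
  `m x = nu^(i+1) d1` and `i + 1 < j` (`nu^j d1` is at the vertex of `a k`).
* vertex of `k`: `Z k`, `Z d1`, not `Z (m d1)`: `m d1 = nu^i d1` is impossible by (1); if
  `m d1 = a (nu^i d1)` with `i < j` then `nu^(i+1) d1 = m (m d1) = d1`, so `nu^(i+1)` fixes `d1` and
  `nu^j d1 = nu^(j-(i+1)) d1`: contradiction to the minimality of `j` (for `i + 1 = j` it would say that
  `d1` is at the vertex of `a k`).
* vertex of `a k`: `Z (a k)`, `Z (m (nu^j d1)) = Z (a (nu^(j-1) d1))` holds, not `Z (nu^j d1)`:
  `nu^j d1 = nu^i d1` with `i < j` contradicts minimality; `nu^j d1 = a (nu^i d1) = m (nu^(i+1) d1)`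
  gives `nu^(j+i+1) d1 = m d1`, impossible by (1).
(Any other proof is fine, for instance with lists of darts, or by taking a path inside `U` from the
vertex of `k` to the vertex of `a k` that avoids one of the two `U`-darts.)
-/

namespace Pool.Agent.Helper80.CA
open Pool.Agent.Helper17.CT

variable {D : Type} (M : CMap D)

open Classical in
/-- parity of the darts equal to `x` at the vertex of `d` -/
private noncomputable def vv (x d : D) : Bool :=
  (decide (d = x) ^^ (decide (M.s d = x) ^^ decide (M.s (M.s d) = x)))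

private lemma x3 (a b c : Bool) : (a ^^ (b ^^ c)) = (b ^^ (c ^^ a)) := by
  revert a b c; decide

private lemma x4 (a b c : Bool) : (a ^^ (b ^^ c)) = (a ^^ (c ^^ b)) := by
  revert a b c; decide

private lemma s_inj {x y : D} (h : M.s x = M.s y) : x = y := by
  rw [← M.s3 x, h, M.s3]

private lemma a_eq {x y : D} : M.a x = y ↔ x = M.a y := by
  constructor
  · rintro rfl; rw [M.a2]
  · rintro rfl; rw [M.a2]

open Classical in
private lemma vv_s (x d : D) : vv M (M.s x) d = vv M x d := by
  unfold vv
  have e1 : (M.s d = M.s x) ↔ d = x := ⟨fun h => s_inj M h, fun h => by rw [h]⟩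
  have e2 : (M.s (M.s d) = M.s x) ↔ M.s d = x := ⟨fun h => s_inj M h, fun h => by rw [h]⟩
  have e3 : (d = M.s x) ↔ M.s (M.s d) = x :=
    ⟨fun h => by rw [h, M.s3], fun h => by rw [← h, M.s3]⟩
  rw [decide_eq_decide.2 e1, decide_eq_decide.2 e2, decide_eq_decide.2 e3]
  exact x3 _ _ _

open Classical in
private lemma path (U : D → Bool) (x y : D)
    (h : Conn M.s M.a U x y) :
    ∃ Z : D → Bool, (∀ d, Z (M.a d) = Z d) ∧ (∀ d, Z d = true → U d = true) ∧
      ∀ d, (Z d ^^ Z (M.s d) ^^ Z (M.s (M.s d))) = (vv M x d ^^ vv M y d) := by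
  unfold Conn at h
  induction h with
  | refl => exact ⟨fun _ => false, fun _ => rfl, fun _ h => absurd h (by simp), fun d => by
      cases vv M x d <;> rfl⟩
  | @tail y z hxy hyz ih =>
    obtain ⟨Z, h1, h2, h3⟩ := ih
    obtain ⟨hy, hz, h | h | h⟩ := hyz
    · subst h
      refine ⟨fun d => (Z d ^^ (decide (d = y) ^^ decide (d = M.a y))), ?_, ?_, ?_⟩
      · intro d
        show (Z (M.a d) ^^ (decide (M.a d = y) ^^ decide (M.a d = M.a y))) = _
        have e1 : (M.a d = y) ↔ d = M.a y := a_eq M
        have e2 : (M.a d = M.a y) ↔ d = y := by rw [a_eq M, M.a2]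
        rw [h1, decide_eq_decide.2 e1, decide_eq_decide.2 e2]
        exact x4 _ _ _
      · intro d hd
        by_cases e1 : d = y
        · rw [e1]; exact hy
        · by_cases e2 : d = M.a y
          · rw [e2]; exact hz
          · simp only [e1, e2, decide_false, Bool.xor_false] at hd
            exact h2 d hd
      · intro d
        have e := h3 d
        show ((Z d ^^ (decide (d = y) ^^ decide (d = M.a y))) ^^
          (Z (M.s d) ^^ (decide (M.s d = y) ^^ decide (M.s d = M.a y))) ^^
          (Z (M.s (M.s d)) ^^ (decide (M.s (M.s d) = y) ^^ decide (M.s (M.s d) = M.a y)))) = _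
        unfold vv at e ⊢
        generalize Z d = b1 at *
        generalize Z (M.s d) = b2 at *
        generalize Z (M.s (M.s d)) = b3 at *
        generalize (decide (d = x) ^^ (decide (M.s d = x) ^^ decide (M.s (M.s d) = x))) = b4 at *
        generalize decide (d = y) = c1 at *
        generalize decide (M.s d = y) = c2 at *
        generalize decide (M.s (M.s d) = y) = c3 at *
        generalize decide (d = M.a y) = c4 at *
        generalize decide (M.s d = M.a y) = c5 at *
        generalize decide (M.s (M.s d) = M.a y) = c6 at *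
        clear h1 h2 h3
        revert b1 b2 b3 b4 c1 c2 c3 c4 c5 c6
        decide
    · subst h
      refine ⟨Z, h1, h2, fun d => ?_⟩
      rw [vv_s]; exact h3 d
    · subst h
      refine ⟨Z, h1, h2, fun d => ?_⟩
      rw [vv_s, vv_s]; exact h3 d

open Classical in
theorem fund_cycle [Finite D] (U : D → Bool) (hU : M.IsHam U) (k : D) (hk : U k = false) :
    ∃ Z : D → Bool, M.Even Z ∧ Z k = true ∧
      ∀ d, Z d = true → U d = true ∨ d = k ∨ d = M.a k := by
  have hsk : ∀ x, U x = false → U (M.s x) = true := by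
    intro x hx
    rcases hU.one x with ⟨h1, h2, h3⟩ | ⟨h1, h2, h3⟩ | ⟨h1, h2, h3⟩
    · exact h2
    · rw [hx] at h1; exact absurd h1 (by decide)
    · exact h2
  have hak : U (M.a k) = false := by rw [hU.acl]; exact hk
  obtain ⟨Z, h1, h2, h3⟩ := path M U (M.s k) (M.s (M.a k))
    (hU.conn _ _ (hsk k hk) (hsk _ hak))
  have hZk : Z k = false := by
    by_contra h
    have := h2 k (by simpa using h)
    rw [hk] at this
    exact absurd this (by decide)
  refine ⟨fun d => (Z d ^^ (decide (d = k) ^^ decide (d = M.a k))), ⟨?_, ?_⟩, ?_, ?_⟩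
  · intro d
    show (Z (M.a d) ^^ (decide (M.a d = k) ^^ decide (M.a d = M.a k))) = _
    have e1 : (M.a d = k) ↔ d = M.a k := a_eq M
    have e2 : (M.a d = M.a k) ↔ d = k := by rw [a_eq M, M.a2]
    rw [h1, decide_eq_decide.2 e1, decide_eq_decide.2 e2]
    exact x4 _ _ _
  · intro d
    have e := h3 d
    rw [vv_s, vv_s] at e
    show ((Z d ^^ (decide (d = k) ^^ decide (d = M.a k))) ^^
      (Z (M.s d) ^^ (decide (M.s d = k) ^^ decide (M.s d = M.a k))) ^^
      (Z (M.s (M.s d)) ^^ (decide (M.s (M.s d) = k) ^^ decide (M.s (M.s d) = M.a k)))) = _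
    unfold vv at e
    generalize Z d = b1 at *
    generalize Z (M.s d) = b2 at *
    generalize Z (M.s (M.s d)) = b3 at *
    generalize decide (d = k) = c1 at *
    generalize decide (M.s d = k) = c2 at *
    generalize decide (M.s (M.s d) = k) = c3 at *
    generalize decide (d = M.a k) = c4 at *
    generalize decide (M.s d = M.a k) = c5 at *
    generalize decide (M.s (M.s d) = M.a k) = c6 at *
    clear h1 h2 h3 hsk hZk
    revert b1 b2 b3 c1 c2 c3 c4 c5 c6
    decide
  · have : k ≠ M.a k := fun h => M.a1 k h.symm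
    simp [hZk, this]
  · intro d hd
    by_cases e1 : d = k
    · exact Or.inr (Or.inl e1)
    · by_cases e2 : d = M.a k
      · exact Or.inr (Or.inr e2)
      · simp only [e1, e2, decide_false, Bool.xor_false] at hd
        exact Or.inl (h2 d hd)

end Pool.Agent.Helper80.CA
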