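import Pool.Agent.Helper66.CA.Intl
import Pool.Agent.Helper63.CT.M10

set_option autoImplicit false

/-!
Project Cantoni (MP_16e137_co), block B (deduction), module CB-5: Hamilton cycles that are not
interlaced.

Notation `t i = f^[i] v0`; the darts at the corner `c_i` (vertex of `t i`) are `t i`, the leg
`s (t i)` and `s (s (t i)) = a (t (i-1))` (because `t i = s (a (t (i-1)))`; for `i = 0` use
`t 0 = t n = f (t (n-1))`). Every dart of the face of `v0` is some `t i` with `i < n`.
`K d :⇔ ∃ i, M.VEq (t i) d` (the corners of `v`). Use a decidable version of `K`.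

(a) `not_intl_one`: take `J := not K`. It contains no dart of the face of `v0`, and all darts of the
face of `w0` (`hNA`). Let `U d`, `J d`, `J (a d) = false`: `a d` is at some corner `c_i`, `i < n`, and
`d` is not at a corner. `a d ≠ t i` (else `d = a (t i)` is at `c_(i+1)`), `a d ≠ a (t (i-1))` (else
`d = t (i-1)`), so `a d = s (t i)`, `U (s (t i))`; by `hU.one` at `c_i` one of `t i`, `a (t (i-1))` is
not in `U`, so `i = j` or `i - 1 ≡ j (mod n)`, where `j` is the only index with `U (t j) = false`: so `d`
is one of the two darts `a (s (t j))`, `a (s (t (j+1)))`; at most 2 < 4 darts.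
(b) `cross_of_intl`: suppose all corners of `w` have `P = true`. Take `J d := P d && not K d`. If
`U d`, `J d`, `J (a d) = false`: `P (a d) = false` is impossible (by `hcut` `d = a v0`, at `c_1`, or
`d = t 2`, both are corners of `v`); so `K (a d)` and `P (a d)`: as in (a) `a d = s (t i)`, and
`P (t i) = P (a d) = true` forces `i = 1` or `i = 2` (`i < n`). So at most two darts:
contradiction to `4 ≤`. Suppose all corners of `w` have `P = false`. Take `J d := not P d && not K d`.
`U d`, `J d`, `J (a d) = false`: `P (a d) = true` is impossible (apply `hcut` to `a d`: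
`a d = a v0`, `d = v0`; or `a d = t 2`, so `d = a (t 2)` is at `c_3`); so `K (a d)`, `P (a d) = false`,
`a d = s (t i)`, `P (t i) = false`, `i` is in `{0, 3}` (`n = 4`) or `{0, 3, 4}` (`n = 5`); for `n = 5`
and `i = 0` both `t 0` and `a (t 4)` are in `U`, so by `One` `U (s (t 0)) = false`, contradiction. So
at most two darts.
-/

namespace Pool.Agent.Helper80.CA
open Pool.Agent.Helper17.CT Pool.Agent.Helper66.CA Function

variable {D : Type} (M : CMap D)

lemma cb5_card (p : D → Prop) [Finite D] (x y : D) (h : ∀ d, p d → d = x ∨ d = y) :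
    Nat.card {d : D // p d} ≤ 2 := by
  classical
  have h1 : Nat.card {d : D // p d} = Set.ncard {d : D | p d} := rfl
  rw [h1]
  calc Set.ncard {d : D | p d} ≤ Set.ncard ({x, y} : Set D) := by
        apply Set.ncard_le_ncard _ (Set.toFinite _)
        intro d hd
        rcases h d hd with h | h
        · exact Or.inl h
        · exact Or.inr h
    _ ≤ 2 := by
        have h2 := Set.ncard_insert_le x ({y} : Set D)
        rw [Set.ncard_singleton] at h2
        exact h2

/-- the corners of the face of `v0` -/
def cb5K (v0 d : D) : Prop := ∃ i, M.VEq ((M.f)^[i] v0) d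

lemma cb5_t (v0 : D) (i : ℕ) : (M.f)^[i + 1] v0 = M.s (M.a ((M.f)^[i] v0)) := by
  rw [iterate_succ_apply']
  rfl

lemma cb5_sst (v0 : D) (i : ℕ) : M.s (M.s ((M.f)^[i + 1] v0)) = M.a ((M.f)^[i] v0) := by
  rw [cb5_t, M.s3]

lemma cb5_veq_s {x y : D} (h : M.VEq x y) : M.VEq x (M.s y) := by
  rcases h with rfl | rfl | rfl
  · exact Or.inr (Or.inl rfl)
  · exact Or.inr (Or.inr rfl)
  · exact Or.inl (M.s3 x)

lemma cb5_K_s (v0 d : D) : cb5K M v0 (M.s d) ↔ cb5K M v0 d := by
  constructor
  · rintro ⟨i, h⟩
    refine ⟨i, ?_⟩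
    have := cb5_veq_s M (cb5_veq_s M h)
    rwa [M.s3] at this
  · rintro ⟨i, h⟩
    exact ⟨i, cb5_veq_s M h⟩

lemma cb5_K_t (v0 : D) (i : ℕ) : cb5K M v0 ((M.f)^[i] v0) := ⟨i, Or.inl rfl⟩

lemma cb5_K_a (v0 : D) (i : ℕ) : cb5K M v0 (M.a ((M.f)^[i] v0)) :=
  ⟨i + 1, Or.inr (Or.inr (cb5_sst M v0 i).symm)⟩

lemma cb5_per (v0 : D) (n : ℕ) (hper : minimalPeriod M.f v0 = n) : (M.f)^[n] v0 = v0 := by
  rw [← hper]
  exact iterate_minimalPeriod

lemma cb5_red (v0 : D) (n : ℕ) (hper : minimalPeriod M.f v0 = n) (hn : 0 < n) (i : ℕ) :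
    ∃ i', i' < n ∧ (M.f)^[i] v0 = (M.f)^[i' + 1] v0 := by
  by_cases h : i % n = 0
  · refine ⟨n - 1, by omega, ?_⟩
    rw [Nat.sub_add_cancel hn, cb5_per M v0 n hper, ← iterate_mod_minimalPeriod_eq, hper, h]
    rfl
  · refine ⟨i % n - 1, ?_, ?_⟩
    · have := Nat.mod_lt i hn
      omega
    · rw [Nat.sub_add_cancel (Nat.pos_of_ne_zero h), ← iterate_mod_minimalPeriod_eq, hper]

lemma cb5_leg (v0 : D) (n : ℕ) (hper : minimalPeriod M.f v0 = n) (hn : 0 < n) (d : D)
    (h1 : cb5K M v0 (M.a d)) (h2 : ¬ cb5K M v0 d) :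
    ∃ i', i' < n ∧ M.a d = M.s ((M.f)^[i' + 1] v0) := by
  obtain ⟨i, hi⟩ := h1
  obtain ⟨i', hi', he⟩ := cb5_red M v0 n hper hn i
  rw [he] at hi
  rcases hi with hi | hi | hi
  · exfalso
    apply h2
    have h3 : d = M.a ((M.f)^[i' + 1] v0) := by
      rw [← hi, M.a2]
    rw [h3]
    exact cb5_K_a M v0 (i' + 1)
  · exact ⟨i', hi', hi⟩
  · exfalso
    apply h2
    rw [cb5_sst] at hi
    have h3 : d = (M.f)^[i'] v0 := by
      have := congrArg M.a hi
      rwa [M.a2, M.a2] at this
    rw [h3]
    exact cb5_K_t M v0 i'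

theorem not_intl_one [Finite D] (U : D → Bool) (hU : M.IsHam U) (v0 w0 : D) (n : ℕ)
    (hper : minimalPeriod M.f v0 = n) (hn : 0 < n)
    (j : ℕ) (hj : ∀ i, i < n → i ≠ j → U ((M.f)^[i] v0) = true)
    (hNA : ∀ x y, M.Face v0 x → M.Face w0 y → ¬ M.VEq x y) :
    ¬ Intl M (M.Face v0) (M.Face w0) U := by
  classical
  intro hI
  have h4 := hI (fun d => !decide (cb5K M v0 d)) (by
      intro d
      simp only [cb5_K_s]) (by
      rintro d ⟨i, rfl⟩
      simp [cb5_K_t M v0 i]) (by
      intro d hd
      simp only [Bool.not_eq_true', decide_eq_false_iff_not]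
      rintro ⟨i, hi⟩
      exact hNA _ _ ⟨i, rfl⟩ hd hi)
  have h5 := cb5_card (fun d : D => U d = true ∧ (!decide (cb5K M v0 d)) = true ∧
    (!decide (cb5K M v0 (M.a d))) = false) (M.a (M.s ((M.f)^[j] v0)))
    (M.a (M.s ((M.f)^[j + 1] v0))) (by
      rintro d ⟨hUd, h1, h2⟩
      simp only [Bool.not_eq_true', decide_eq_false_iff_not, Bool.not_eq_false',
        decide_eq_true_eq] at h1 h2
      obtain ⟨i, hi, he⟩ := cb5_leg M v0 n hper hn d h2 h1
      have hd : d = M.a (M.s ((M.f)^[i + 1] v0)) := by rw [← he, M.a2]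
      have hUs : U (M.s ((M.f)^[i + 1] v0)) = true := by rw [← he, hU.acl, hUd]
      have h6 := hU.one ((M.f)^[i + 1] v0)
      rw [cb5_sst, hUs, hU.acl] at h6
      have h7 : U ((M.f)^[i + 1] v0) = false ∨ U ((M.f)^[i] v0) = false := by
        rcases h6 with ⟨h, _, _⟩ | ⟨_, h, _⟩ | ⟨_, _, h⟩
        · exact Or.inl h
        · exact absurd h (by decide)
        · exact Or.inr h
      rcases h7 with h7 | h7
      · left
        by_cases hin : i + 1 < n
        · have h8 : i + 1 = j := by
            by_contra hne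
            rw [hj _ hin hne] at h7
            exact absurd h7 (by decide)
          rw [hd, h8]
        · have h8 : i + 1 = n := by omega
          rw [h8, cb5_per M v0 n hper] at h7
          have h9 : 0 = j := by
            by_contra hne
            have h10 := hj 0 hn hne
            rw [iterate_zero_apply, h7] at h10
            exact absurd h10 (by decide)
          rw [hd, h8, cb5_per M v0 n hper, ← h9, iterate_zero_apply]
      · right
        have h8 : i = j := by
          by_contra hne
          rw [hj _ hi hne] at h7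
          exact absurd h7 (by decide)
        rw [hd, h8])
  omega

theorem cross_of_intl [Finite D] (U : D → Bool) (hU : M.IsHam U) (v0 w0 : D) (n : ℕ)
    (hn : n = 4 ∨ n = 5) (hper : minimalPeriod M.f v0 = n) (h0 : U v0 = true)
    (h4 : n = 5 → U ((M.f)^[4] v0) = true)
    (P : D → Bool) (hP : M.VSet P) (p0 : P v0 = false) (p1 : P (M.f v0) = true)
    (p2 : P ((M.f)^[2] v0) = true) (p3 : P ((M.f)^[3] v0) = false)
    (p4 : n = 5 → P ((M.f)^[4] v0) = false)
    (hcut : ∀ d, U d = true → P d = true → P (M.a d) = false →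
      d = M.a v0 ∨ d = (M.f)^[2] v0)
    (hNA : ∀ x y, M.Face v0 x → M.Face w0 y → ¬ M.VEq x y)
    (hI : Intl M (M.Face v0) (M.Face w0) U) :
    (∃ x, M.Face w0 x ∧ P x = true) ∧ ∃ y, M.Face w0 y ∧ P y = false := by
  classical
  have hn0 : 0 < n := by omega
  have hperiod := cb5_per M v0 n hper
  have hKw : ∀ d, M.Face w0 d → ¬ cb5K M v0 d := by
    rintro d hd ⟨i, hi⟩
    exact hNA _ _ ⟨i, rfl⟩ hd hi
  constructor
  · by_contra hcon
    push Not at hcon
    have h5 := hI (fun d => !(P d) && !decide (cb5K M v0 d)) (by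
      intro d
      simp only [cb5_K_s, hP d]) (by
      rintro d ⟨i, rfl⟩
      simp [cb5_K_t M v0 i]) (by
      intro d hd
      have h1 := hcon d hd
      have h2 := hKw d hd
      simp [h2, h1])
    have h6 := cb5_card (fun d : D => U d = true ∧ (!(P d) && !decide (cb5K M v0 d)) = true ∧
      (!(P (M.a d)) && !decide (cb5K M v0 (M.a d))) = false) (M.a (M.s ((M.f)^[3] v0)))
      (M.a (M.s ((M.f)^[4] v0))) (by
      rintro d ⟨hUd, h1, h2⟩
      simp only [Bool.and_eq_true, Bool.and_eq_false_iff, Bool.not_eq_true',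
        decide_eq_false_iff_not, Bool.not_eq_false', decide_eq_true_eq] at h1 h2
      obtain ⟨hPd, hKd⟩ := h1
      have hPa : P (M.a d) = false := by
        by_contra hPa
        have hPa' : P (M.a d) = true := by simpa using hPa
        rcases hcut (M.a d) (by rw [hU.acl, hUd]) hPa' (by rw [M.a2]; exact hPd) with h | h
        · have h' : d = v0 := by
            have := congrArg M.a h
            rwa [M.a2, M.a2] at this
          apply hKd
          rw [h']
          exact cb5_K_t M v0 0
        · have h' : d = M.a ((M.f)^[2] v0) := by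
            rw [← h, M.a2]
          apply hKd
          rw [h']
          exact cb5_K_a M v0 2
      have hKa : cb5K M v0 (M.a d) := by
        rcases h2 with h2 | h2
        · rw [hPa] at h2
          exact absurd h2 (by decide)
        · exact h2
      obtain ⟨i, hi, he⟩ := cb5_leg M v0 n hper hn0 d hKa hKd
      have hd : d = M.a (M.s ((M.f)^[i + 1] v0)) := by rw [← he, M.a2]
      have hPi : P ((M.f)^[i + 1] v0) = false := by
        rw [he, hP] at hPa
        exact hPa
      have hUs : U (M.s ((M.f)^[i + 1] v0)) = true := by rw [← he, hU.acl, hUd]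
      have hi5 : i < 5 := by omega
      interval_cases i
      · exfalso
        rw [zero_add, iterate_one, p1] at hPi
        exact absurd hPi (by decide)
      · exfalso
        rw [p2] at hPi
        exact absurd hPi (by decide)
      · exact Or.inl hd
      · exact Or.inr hd
      · exfalso
        have hn5 : n = 5 := by omega
        have h7 := hU.one ((M.f)^[4 + 1] v0)
        rw [cb5_sst, hUs, hU.acl, h4 hn5] at h7
        rw [hn5] at hperiod
        rw [show 4 + 1 = 5 from rfl, hperiod, h0] at h7
        rcases h7 with ⟨h, _, _⟩ | ⟨_, h, _⟩ | ⟨_, _, h⟩ <;> exact absurd h (by decide))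
    omega
  · by_contra hcon
    push Not at hcon
    have h5 := hI (fun d => P d && !decide (cb5K M v0 d)) (by
      intro d
      simp only [cb5_K_s, hP d]) (by
      rintro d ⟨i, rfl⟩
      simp [cb5_K_t M v0 i]) (by
      intro d hd
      have h1 := hcon d hd
      have h2 := hKw d hd
      simp only [Bool.not_eq_false] at h1
      simp [h2, h1])
    have h6 := cb5_card (fun d : D => U d = true ∧ (P d && !decide (cb5K M v0 d)) = true ∧
      (P (M.a d) && !decide (cb5K M v0 (M.a d))) = false) (M.a (M.s ((M.f)^[1] v0)))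
      (M.a (M.s ((M.f)^[2] v0))) (by
      rintro d ⟨hUd, h1, h2⟩
      simp only [Bool.and_eq_true, Bool.and_eq_false_iff, Bool.not_eq_true',
        decide_eq_false_iff_not, Bool.not_eq_false', decide_eq_true_eq] at h1 h2
      obtain ⟨hPd, hKd⟩ := h1
      have hPa : P (M.a d) = true := by
        by_contra hPa
        have hPa' : P (M.a d) = false := by simpa using hPa
        rcases hcut d hUd hPd hPa' with h | h
        · apply hKd
          rw [h]
          exact cb5_K_a M v0 0
        · apply hKd
          rw [h]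
          exact cb5_K_t M v0 2
      have hKa : cb5K M v0 (M.a d) := by
        rcases h2 with h2 | h2
        · rw [hPa] at h2
          exact absurd h2 (by decide)
        · exact h2
      obtain ⟨i, hi, he⟩ := cb5_leg M v0 n hper hn0 d hKa hKd
      have hd : d = M.a (M.s ((M.f)^[i + 1] v0)) := by rw [← he, M.a2]
      have hPi : P ((M.f)^[i + 1] v0) = true := by
        rw [he, hP] at hPa
        exact hPa
      have hi5 : i < 5 := by omega
      interval_cases i
      · exact Or.inl hd
      · exact Or.inr hd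
      · exfalso
        rw [p3] at hPi
        exact absurd hPi (by decide)
      · exfalso
        rcases hn with hn | hn
        · rw [hn] at hperiod
          rw [show 3 + 1 = 4 from rfl, hperiod, p0] at hPi
          exact absurd hPi (by decide)
        · rw [show 3 + 1 = 4 from rfl, p4 hn] at hPi
          exact absurd hPi (by decide)
      · exfalso
        have hn5 : n = 5 := by omega
        rw [hn5] at hperiod
        rw [show 4 + 1 = 5 from rfl, hperiod, p0] at hPi
        exact absurd hPi (by decide))
    omega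

end Pool.Agent.Helper80.CA
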