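import Pool.Agent.Helper75.CT.Basic

set_option autoImplicit false

/-!
Project Cantoni (MP_16e137_co), block B (deduction), module CB-7: the colours of the edges of a face
of length 4 or 5.

Notation `t i = f^[i] d`, `x i = γ (t i)`. `t (i+1) = s (a (t i))`, so `x (i+1) ≠ x i` (`hT.prop`,
`hT.acl`), and `t n = t 0`.
(a) `pattern4`: `x 0, x 1, x 2, x 3` cyclically different. If `x 0 ≠ x 2` then `x 1 = x 3` (the third
colour): take `r = 0`: `b = x 1 = x 3`, `c = x 0`, `a = x 2`. If `x 1 ≠ x 3` then `x 0 = x 2`: take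
`r = 1`: `t' i = f^[i] (f d)`, colours `x 1, x 2, x 3, x 0`. It remains to exclude `x 0 = x 2`,
`x 1 = x 3`. Let `c` be the colour different from `x 0` and `x 1`, `U = {γ ≠ c}` a Hamilton cycle
(`hT.ham c`). The set `W = {t i, a (t i) | i < 4}` is contained in `U` and closed under `Step` inside
`U`: at the vertex of `t i` the darts are `t i`, `s (t i)`, `s (s (t i)) = a (t (i-1))` and the leg
`s (t i)` has the third colour `c` (`t i` and `a (t (i-1))` have the colours `x 0`, `x 1`), so it is not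
in `U`. By `hU.conn` `U = W`. Every vertex has a dart in `U`, so every dart of `D` is one of `t i`,
`s (t i)`, `s (s (t i))`, `i < 4`: `Nat.card D ≤ 12`, contradiction.
(b) `pattern5`: for five cyclically different colours out of three there is `r < 5` such that, with
`y i = x ((r + i) % 5)`: `y 1 = y 3`, `y 2 = y 4`, and `y 0, y 1, y 2` are pairwise different (`decide`).
-/

namespace Pool.Agent.Helper80.CA
open Pool.Agent.Helper17.CT Function

variable {D : Type} (M : CMap D)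

private theorem col_ne (γ : D → Fin 3) (hT : M.Tri γ) (x : D) : γ (M.f x) ≠ γ x := by
  have h := hT.prop (M.a x)
  rw [hT.acl] at h
  exact h

/-- Four darts coloured alternately with two colours: the whole map has at most 12 darts. -/
private theorem alt4 [Finite D] (γ : D → Fin 3) (hT : M.Tri γ) (d : D)
    (hp : M.f (M.f (M.f (M.f d))) = d)
    (h02 : γ d = γ (M.f (M.f d))) (h13 : γ (M.f d) = γ (M.f (M.f (M.f d)))) :
    Nat.card D ≤ 12 := by
  have h01 : γ (M.f d) ≠ γ d := col_ne M γ hT d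
  obtain ⟨c, hc0, hc1⟩ : ∃ c : Fin 3, c ≠ γ d ∧ c ≠ γ (M.f d) := by
    have h4 : ∀ a b : Fin 3, ∃ c : Fin 3, c ≠ a ∧ c ≠ b := by decide
    exact h4 _ _
  have hthird : ∀ a b c e : Fin 3, a ≠ b → c ≠ a → c ≠ b → e ≠ a → e ≠ b → e = c := by decide
  have hU := hT.ham c
  -- the four darts
  let T : ℕ → D := fun n => (M.f)^[n] d
  have hT0 : T 0 = d := rfl
  have hTs : ∀ n, T (n + 1) = M.f (T n) := fun n => Function.iterate_succ_apply' _ _ _
  have hT4 : ∀ n, T (n + 4) = T n := by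
    intro n
    have h5 : T (n + 4) = (M.f)^[n] ((M.f)^[4] d) := Function.iterate_add_apply _ _ _ _
    rw [h5]
    have h6 : (M.f)^[4] d = d := hp
    rw [h6]
  have hcol : ∀ n, (γ (T n) = γ d ∧ γ (T (n + 1)) = γ (M.f d)) ∨
      (γ (T n) = γ (M.f d) ∧ γ (T (n + 1)) = γ d) := by
    have h7 : ∀ n, (T n = d ∨ T n = M.f (M.f d)) ∨ (T n = M.f d ∨ T n = M.f (M.f (M.f d))) := by
      intro n
      induction n with
      | zero => exact Or.inl (Or.inl rfl)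
      | succ n ih =>
        rw [hTs]
        rcases ih with (h | h) | (h | h)
        · exact Or.inr (Or.inl (by rw [h]))
        · exact Or.inr (Or.inr (by rw [h]))
        · exact Or.inl (Or.inr (by rw [h]))
        · exact Or.inl (Or.inl (by rw [h, hp]))
    intro n
    rw [hTs]
    rcases h7 n with (h | h) | (h | h)
    · exact Or.inl ⟨by rw [h], by rw [h]⟩
    · exact Or.inl ⟨by rw [h, ← h02], by rw [h, ← h13]⟩
    · exact Or.inr ⟨by rw [h], by rw [h, ← h02]⟩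
    · exact Or.inr ⟨by rw [h, ← h13], by rw [h, hp]⟩
  have hTc : ∀ n, γ (T n) ≠ c := by
    intro n
    rcases hcol n with h | h
    · rw [h.1]; exact hc0.symm
    · rw [h.1]; exact hc1.symm
  -- the predecessor
  have hpre : ∀ n, M.s (M.s (T n)) = M.a (T (n + 3)) := by
    intro n
    have h8 : T n = M.s (M.a (T (n + 3))) := by
      rw [← hT4 n]
      exact hTs (n + 3)
    rw [h8, M.s3]
  -- the legs are not in the Hamilton cycle
  have hleg : ∀ n, γ (M.s (T n)) = c := by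
    intro n
    have h9 : γ (M.s (T n)) ≠ γ (T n) := hT.prop (T n)
    have h10 : γ (M.s (T n)) ≠ γ (T (n + 3)) := by
      have h11 := hT.prop (M.s (T n))
      rw [hpre, hT.acl] at h11
      exact h11.symm
    have h12 : γ (T (n + 3)) ≠ γ (T n) := by
      have h13' := col_ne M γ hT (T (n + 3))
      rw [← hTs, hT4 n] at h13'
      exact h13'.symm
    have hTnc := hTc n
    have hTnc3 := hTc (n + 3)
    exact hthird (γ (T n)) (γ (T (n + 3))) c _ h12.symm hTnc.symm hTnc3.symm h9 h10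
  -- the closed set
  let W : D → Prop := fun e => ∃ n, e = T n ∨ e = M.a (T n)
  have hstep : ∀ x y, Step M.s M.a (fun e => decide (γ e ≠ c)) x y → W x → W y := by
    rintro x y ⟨hx, hy, hxy⟩ ⟨n, hn⟩
    have hy' : γ y ≠ c := by simpa using hy
    rcases hn with rfl | rfl
    · rcases hxy with rfl | rfl | rfl
      · exact ⟨n, Or.inr rfl⟩
      · exact absurd (hleg n) hy'
      · exact ⟨n + 3, Or.inr (hpre n)⟩
    · rcases hxy with rfl | rfl | rfl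
      · exact ⟨n, Or.inl (M.a2 _)⟩
      · exact ⟨n + 1, Or.inl (hTs n).symm⟩
      · exfalso
        apply hy'
        have h14 := hleg (n + 1)
        rw [hTs] at h14
        exact h14
  have hall : ∀ y, γ y ≠ c → W y := by
    intro y hy
    have h15 : Conn M.s M.a (fun e => decide (γ e ≠ c)) (T 0) y :=
      hU.conn (T 0) y (by simpa using hTc 0) (by simpa using hy)
    clear hy
    induction h15 with
    | refl => exact ⟨0, Or.inl rfl⟩
    | tail _ hs ih => exact hstep _ _ hs ih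
  -- every dart is of the form s^j (T i)
  have hmod : ∀ n, ∃ i : Fin 4, T n = T i.1 := by
    intro n
    refine ⟨⟨n % 4, Nat.mod_lt _ (by norm_num)⟩, ?_⟩
    have h16 : ∀ q r, T (r + 4 * q) = T r := by
      intro q r
      induction q with
      | zero => rfl
      | succ q ih =>
        have : r + 4 * (q + 1) = (r + 4 * q) + 4 := by ring
        rw [this, hT4, ih]
    have h17 := h16 (n / 4) (n % 4)
    rw [Nat.mod_add_div] at h17
    exact h17
  let g : Fin 4 × Fin 3 → D := fun p => (M.s)^[p.2.1] (T p.1.1)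
  have hgT : ∀ n (j : Fin 3), ∃ p, g p = (M.s)^[j.1] (T n) := by
    intro n j
    obtain ⟨i, hi⟩ := hmod n
    exact ⟨(i, j), by rw [hi]⟩
  have hgW : ∀ w, W w → (∃ p, g p = w) ∧ ∃ p, g p = M.s (M.s w) := by
    rintro w ⟨n, rfl | rfl⟩
    · exact ⟨hgT n 0, hgT n 2⟩
    · have h18 : M.a (T n) = M.s (M.s (T (n + 1))) := by
        rw [hTs]
        exact (M.s3 (M.a (T n))).symm
      constructor
      · rw [h18]
        exact hgT (n + 1) 2
      · rw [h18, M.s3]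
        exact hgT (n + 1) 1
  have hsurj : Function.Surjective g := by
    intro e
    by_cases he : γ e = c
    · have h19 : γ (M.s e) ≠ c := by
        rw [← he]
        exact hT.prop e
      obtain ⟨p, hp'⟩ := (hgW _ (hall _ h19)).2
      exact ⟨p, by rw [hp', M.s3]⟩
    · exact (hgW _ (hall _ he)).1
  have h20 := Nat.card_le_card_of_surjective g hsurj
  simpa using h20

theorem pattern4 [Finite D] (γ : D → Fin 3) (hT : M.Tri γ) (hD : 12 < Nat.card D) (d : D)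
    (hd : minimalPeriod M.f d = 4) :
    ∃ r : ℕ, γ (M.f ((M.f)^[r] d)) = γ ((M.f)^[3] ((M.f)^[r] d)) ∧
      γ ((M.f)^[r] d) ≠ γ (M.f ((M.f)^[r] d)) ∧
      γ ((M.f)^[r] d) ≠ γ ((M.f)^[2] ((M.f)^[r] d)) ∧
      γ (M.f ((M.f)^[r] d)) ≠ γ ((M.f)^[2] ((M.f)^[r] d)) := by
  have hp : M.f (M.f (M.f (M.f d))) = d := by
    have h := iterate_minimalPeriod (f := M.f) (x := d)
    rw [hd] at h
    exact h
  have h0 := col_ne M γ hT d
  have h1 := col_ne M γ hT (M.f d)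
  have h2 := col_ne M γ hT (M.f (M.f d))
  have h3 := col_ne M γ hT (M.f (M.f (M.f d)))
  rw [hp] at h3
  have key : ∀ x0 x1 x2 x3 : Fin 3, x1 ≠ x0 → x2 ≠ x1 → x3 ≠ x2 → x0 ≠ x3 →
      (x1 = x3 ∧ x0 ≠ x1 ∧ x0 ≠ x2 ∧ x1 ≠ x2) ∨ (x2 = x0 ∧ x1 ≠ x2 ∧ x1 ≠ x3 ∧ x2 ≠ x3) ∨
        (x0 = x2 ∧ x1 = x3) := by decide
  rcases key _ _ _ _ h0 h1 h2 h3 with h | h | h
  · exact ⟨0, h⟩
  · refine ⟨1, ?_, h.2⟩
    change γ (M.f (M.f d)) = γ (M.f (M.f (M.f (M.f d))))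
    rw [hp]
    exact h.1
  · exact absurd (alt4 M γ hT d hp h.1 h.2) (by omega)

theorem pattern5 [Finite D] (γ : D → Fin 3) (hT : M.Tri γ) (d : D)
    (hd : minimalPeriod M.f d = 5) :
    ∃ r : ℕ, γ (M.f ((M.f)^[r] d)) = γ ((M.f)^[3] ((M.f)^[r] d)) ∧
      γ ((M.f)^[2] ((M.f)^[r] d)) = γ ((M.f)^[4] ((M.f)^[r] d)) ∧
      γ ((M.f)^[r] d) ≠ γ (M.f ((M.f)^[r] d)) ∧
      γ ((M.f)^[r] d) ≠ γ ((M.f)^[2] ((M.f)^[r] d)) ∧
      γ (M.f ((M.f)^[r] d)) ≠ γ ((M.f)^[2] ((M.f)^[r] d)) := by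
  have hp : M.f (M.f (M.f (M.f (M.f d)))) = d := by
    have h := iterate_minimalPeriod (f := M.f) (x := d)
    rw [hd] at h
    exact h
  have h0 := col_ne M γ hT d
  have h1 := col_ne M γ hT (M.f d)
  have h2 := col_ne M γ hT (M.f (M.f d))
  have h3 := col_ne M γ hT (M.f (M.f (M.f d)))
  have h4 := col_ne M γ hT (M.f (M.f (M.f (M.f d))))
  rw [hp] at h4
  have key : ∀ x0 x1 x2 x3 x4 : Fin 3, x1 ≠ x0 → x2 ≠ x1 → x3 ≠ x2 → x4 ≠ x3 → x0 ≠ x4 →
      (x1 = x3 ∧ x2 = x4 ∧ x0 ≠ x1 ∧ x0 ≠ x2 ∧ x1 ≠ x2) ∨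
      (x2 = x4 ∧ x3 = x0 ∧ x1 ≠ x2 ∧ x1 ≠ x3 ∧ x2 ≠ x3) ∨
      (x3 = x0 ∧ x4 = x1 ∧ x2 ≠ x3 ∧ x2 ≠ x4 ∧ x3 ≠ x4) ∨
      (x4 = x1 ∧ x0 = x2 ∧ x3 ≠ x4 ∧ x3 ≠ x0 ∧ x4 ≠ x0) ∨
      (x0 = x2 ∧ x1 = x3 ∧ x4 ≠ x0 ∧ x4 ≠ x1 ∧ x0 ≠ x1) := by
    intro x0 x1 x2 x3 x4
    have k0 := x0.isLt
    have k1 := x1.isLt
    have k2 := x2.isLt
    have k3 := x3.isLt
    have k4 := x4.isLt
    simp only [ne_eq, Fin.ext_iff]
    intro e0 e1 e2 e3 e4
    omega
  rcases key _ _ _ _ _ h0 h1 h2 h3 h4 with h | h | h | h | h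
  · exact ⟨0, h⟩
  · refine ⟨1, ?_⟩
    change γ (M.f (M.f d)) = γ (M.f (M.f (M.f (M.f d)))) ∧
      γ (M.f (M.f (M.f d))) = γ (M.f (M.f (M.f (M.f (M.f d))))) ∧
      γ (M.f d) ≠ γ (M.f (M.f d)) ∧ γ (M.f d) ≠ γ (M.f (M.f (M.f d))) ∧
      γ (M.f (M.f d)) ≠ γ (M.f (M.f (M.f d)))
    rw [hp]
    exact h
  · refine ⟨2, ?_⟩
    change γ (M.f (M.f (M.f d))) = γ (M.f (M.f (M.f (M.f (M.f d))))) ∧
      γ (M.f (M.f (M.f (M.f d)))) = γ (M.f (M.f (M.f (M.f (M.f (M.f d)))))) ∧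
      γ (M.f (M.f d)) ≠ γ (M.f (M.f (M.f d))) ∧ γ (M.f (M.f d)) ≠ γ (M.f (M.f (M.f (M.f d)))) ∧
      γ (M.f (M.f (M.f d))) ≠ γ (M.f (M.f (M.f (M.f d))))
    rw [hp]
    exact h
  · refine ⟨3, ?_⟩
    change γ (M.f (M.f (M.f (M.f d)))) = γ (M.f (M.f (M.f (M.f (M.f (M.f d)))))) ∧
      γ (M.f (M.f (M.f (M.f (M.f d))))) = γ (M.f (M.f (M.f (M.f (M.f (M.f (M.f d))))))) ∧
      γ (M.f (M.f (M.f d))) ≠ γ (M.f (M.f (M.f (M.f d)))) ∧
      γ (M.f (M.f (M.f d))) ≠ γ (M.f (M.f (M.f (M.f (M.f d))))) ∧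
      γ (M.f (M.f (M.f (M.f d)))) ≠ γ (M.f (M.f (M.f (M.f (M.f d)))))
    rw [hp]
    exact h
  · refine ⟨4, ?_⟩
    change γ (M.f (M.f (M.f (M.f (M.f d))))) = γ (M.f (M.f (M.f (M.f (M.f (M.f (M.f d))))))) ∧
      γ (M.f (M.f (M.f (M.f (M.f (M.f d)))))) =
        γ (M.f (M.f (M.f (M.f (M.f (M.f (M.f (M.f d)))))))) ∧
      γ (M.f (M.f (M.f (M.f d)))) ≠ γ (M.f (M.f (M.f (M.f (M.f d))))) ∧
      γ (M.f (M.f (M.f (M.f d)))) ≠ γ (M.f (M.f (M.f (M.f (M.f (M.f d)))))) ∧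
      γ (M.f (M.f (M.f (M.f (M.f d))))) ≠ γ (M.f (M.f (M.f (M.f (M.f (M.f d))))))
    rw [hp]
    exact h

end Pool.Agent.Helper80.CA
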