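import Pool.Agent.Helper80.CA.Split
import Pool.Agent.Helper80.CA.Cross
import Pool.Agent.Helper80.CA.NotIntl
import Pool.Agent.Helper80.CA.Count
import Pool.Agent.Helper80.CA.Pattern
import Pool.Agent.Helper63.CT.M12
import Pool.Agent.Helper75.CT.Period

set_option autoImplicit false

/-!
Project Cantoni (MP_16e137_co), block B (deduction): local lemmas.
-/

namespace Pool.Agent.Helper80.CA
open Pool.Agent.Helper17.CT Pool.Agent.Helper66.CA Function

variable {D : Type} (M : CMap D)

/-- The faces of `v` and `w` have no common vertex. -/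
def NonAdj (v w : D) : Prop := ∀ x y, M.Face v x → M.Face w y → ¬ M.VEq x y

theorem face_refl (x : D) : M.Face x x := ⟨0, rfl⟩

theorem face_f (x : D) : M.Face x (M.f x) := ⟨1, rfl⟩

theorem face_as (x : D) : M.Face (M.a x) (M.s x) := ⟨1, by simp [CMap.f, M.a2]⟩

theorem face_ass (x : D) : M.Face (M.a (M.s (M.s x))) x := ⟨1, by simp [CMap.f, M.a2, M.s3]⟩

/-- An edge between two neighbours of a face is a leg of the face. -/
theorem two_nb [Finite D] (hp : M.Planar) (h4 : M.Cyc4) (hb : ∀ d, ¬ M.Face d (M.a d)) {e x y : D}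
    (hxy : M.Face x y) (h1 : M.Face e (M.a x)) (h2 : M.Face (M.a e) (M.a y)) :
    (y = M.f x ∧ e = M.a (M.s y)) ∨ (x = M.f y ∧ e = M.s x) := by
  have h3 : M.Face (M.a (M.a y)) x := by rw [M.a2]; exact face_symm M hxy
  rcases faces3 M hp h4 hb (face_symm M h1) h2 h3 with ⟨h, h'⟩ | ⟨h, h'⟩
  · right
    refine ⟨?_, h⟩
    rw [CMap.f, h', h, M.s3]
  · left
    rw [M.a2] at h h'
    refine ⟨h, ?_⟩
    rw [← h', M.a2]

/-- A face with a corner at a corner of `v` is `v` or one of its neighbours. -/
theorem adj_cases [Finite D] {v w : D} (h : ¬ NonAdj M v w) :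
    M.Face w v ∨ ∃ x, M.Face v x ∧ M.Face w (M.a x) := by
  unfold NonAdj at h
  push Not at h
  obtain ⟨x, y, hx, hy, hxy⟩ := h
  rcases hxy with h | h | h
  · left
    rw [h] at hy
    exact face_trans M hy (face_symm M hx)
  · right
    refine ⟨x, hx, ?_⟩
    rw [h] at hy
    exact face_trans M hy (face_symm M (face_as M x))
  · right
    refine ⟨M.a (M.s (M.s x)), face_trans M hx (face_symm M (face_ass M x)), ?_⟩
    rw [M.a2, ← h]
    exact hy

theorem it_succ (d : D) (i : ℕ) : (M.f)^[i + 1] d = M.s (M.a ((M.f)^[i] d)) := by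
  rw [iterate_succ_apply']; rfl

/-- the dart before -/
theorem ss_succ (d : D) (i : ℕ) : M.s (M.s ((M.f)^[i + 1] d)) = M.a ((M.f)^[i] d) := by
  rw [it_succ, M.s3]

theorem ss_f (d : D) : M.s (M.s (M.f d)) = M.a d := by
  rw [CMap.f, M.s3]

theorem face_iter [Finite D] {v x : D} (n : ℕ) (hper : minimalPeriod M.f v = n) (hn : 0 < n)
    (h : M.Face v x) : ∃ i < n, (M.f)^[i] v = x := by
  obtain ⟨i, hi⟩ := h
  refine ⟨i % n, Nat.mod_lt _ hn, ?_⟩
  rw [← hi, ← hper, iterate_mod_minimalPeriod_eq]

theorem period_iter [Finite D] (d : D) (r : ℕ) :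
    minimalPeriod M.f ((M.f)^[r] d) = minimalPeriod M.f d := by
  have hper : d ∈ periodicPts M.f := (M.hf_inj).mem_periodicPts d
  exact minimalPeriod_apply_iterate hper r

/-- along a face, if `P` is true somewhere and false somewhere then some dart of the face goes
out of `P` -/
theorem exists_out [Finite D] {P : D → Bool} (hP : M.VSet P) {w x y : D} (hx : M.Face w x)
    (hy : M.Face w y) (hPx : P x = true) (hPy : P y = false) :
    ∃ z, M.Face w z ∧ P z = true ∧ P (M.a z) = false := by
  have hxy : M.Face x y := face_trans M (face_symm M hx) hy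
  obtain ⟨n, hn⟩ := hxy
  by_contra hcon
  push Not at hcon
  have key : ∀ i, P ((M.f)^[i] x) = true := by
    intro i
    induction i with
    | zero => exact hPx
    | succ i ih =>
      have h1 := hcon _ (face_trans M hx ⟨i, rfl⟩) ih
      rw [it_succ, hP]
      simpa using h1
  rw [← hn, key n] at hPy
  exact Bool.noConfusion hPy

/-- along a face, if `P` is true somewhere and false somewhere then some dart of the face goes
into `P` -/
theorem exists_in [Finite D] {P : D → Bool} (hP : M.VSet P) {w x y : D} (hx : M.Face w x)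
    (hy : M.Face w y) (hPx : P x = true) (hPy : P y = false) :
    ∃ z, M.Face w z ∧ P z = false ∧ P (M.a z) = true := by
  have hP' : M.VSet (fun d => !P d) := fun d => by simp only [hP d]
  obtain ⟨z, h1, h2, h3⟩ := exists_out M (P := fun d => !P d) hP' hy hx (by simp [hPy])
    (by simp [hPx])
  exact ⟨z, h1, by simpa using h2, by simpa using h3⟩

end Pool.Agent.Helper80.CA
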