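import Pool.Agent.Helper80.CA.NoFive
import Pool.Agent.Helper66.CA.Ae
import Pool.Agent.Helper17.CA.MapAll

set_option autoImplicit false

/-!
Project Cantoni (MP_16e137_co): cyclically 4-edge-connected plane cubic maps with exactly three
Hamilton cycles have at most four vertices.
-/

namespace Pool.Agent.Helper80.CA
open Pool.Agent.Helper17.CT

theorem cycBound : Pool.Agent.Helper17.CA.CycBound := by
  intro D _ M γ hp hT h4
  exact card_le hp hT h4 (fun v0 w0 h5 hNA => Pool.Agent.Helper66.CA.ae M hp v0 w0 h5 hNA)

end Pool.Agent.Helper80.CA
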