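import Pool.Agent.Helper80.CA.Local

set_option autoImplicit false

/-!
Project Cantoni (MP_16e137_co), block B (deduction): no face of length 4.
-/

namespace Pool.Agent.Helper80.CA
open Pool.Agent.Helper17.CT Pool.Agent.Helper66.CA Function

variable {D : Type} {M : CMap D} {γ : D → Fin 3}

/-- The standing assumptions. -/
structure Ctx (M : CMap D) (γ : D → Fin 3) : Prop where
  hp : M.Planar
  hT : M.Tri γ
  h4 : M.Cyc4
  hD : 12 < Nat.card D
  hae : ∀ v0 w0 : D, minimalPeriod M.f v0 ≤ 5 → NonAdj M v0 w0 → Even (NI M v0 w0)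

theorem Ctx.hb (C : Ctx M γ) (d : D) : ¬ M.Face d (M.a d) := not_face_a M C.hp γ C.hT d

theorem Ctx.c3 [Finite D] (C : Ctx M γ) : M.Con3 := con3_of_tri M γ C.hT

theorem Ctx.iff [Finite D] (C : Ctx M γ) {a b c : Fin 3} (hab : a ≠ b) (hac : a ≠ c) (hbc : b ≠ c)
    {v0 w0 : D} {n : ℕ} (hper : minimalPeriod M.f v0 = n) (hn : 0 < n) (h5 : n ≤ 5)
    (hNA : NonAdj M v0 w0) (j : ℕ) (hj : ∀ i, i < n → i ≠ j → γ ((M.f)^[i] v0) ≠ c) :
    Intl M (M.Face v0) (M.Face w0) (fun d => decide (γ d ≠ a)) ↔
      Intl M (M.Face v0) (M.Face w0) (fun d => decide (γ d ≠ b)) := by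
  apply intl_iff M γ C.hT v0 w0 (C.hae v0 w0 (by omega) hNA) a b c hab hac hbc
  apply not_intl_one M _ (C.hT.ham c) v0 w0 n hper hn j _ hNA
  intro i hi hij
  simpa using hj i hi hij

/-- the face functions of the three Hamilton cycles -/
theorem Ctx.side (C : Ctx M γ) (b : Fin 3) :
    ∃ φ : D → Bool, (∀ d, φ (M.f d) = φ d) ∧ ∀ d, decide (γ d ≠ b) = (φ d ^^ φ (M.a d)) :=
  C.hp _ (even_of_ham M _ (C.hT.ham b))

/-- Colour of a leg. -/
theorem Ctx.leg (C : Ctx M γ) (x : D) : γ (M.s x) ≠ γ x ∧ γ (M.s x) ≠ γ (M.s (M.s x)) :=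
  ⟨C.hT.prop x, (C.hT.prop (M.s x)).symm⟩

theorem no_four [Finite D] (C : Ctx M γ) (d : D) : minimalPeriod M.f d ≠ 4 := by
  classical
  intro hd
  obtain ⟨r, q1, q2, q3, q4⟩ := pattern4 M γ C.hT C.hD d hd
  have hper : minimalPeriod M.f ((M.f)^[r] d) = 4 := by rw [period_iter, hd]
  set v := (M.f)^[r] d with hv
  set t : ℕ → D := fun i => (M.f)^[i] v with ht
  have ht0 : t 0 = v := rfl
  have ht1 : t 1 = M.f v := rfl
  have ht4 : t 4 = v := by
    have : (M.f)^[minimalPeriod M.f v] v = v := iterate_minimalPeriod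
    rw [hper] at this
    exact this
  have hss : ∀ i, M.s (M.s (t (i + 1))) = M.a (t i) := fun i => ss_succ M v i
  have hss0 : M.s (M.s v) = M.a (t 3) := by rw [← hss 3, ht4]
  set b := γ (M.f v) with hb
  set c := γ v with hc
  set a := γ (t 2) with ha
  have q1' : γ (t 3) = b := q1.symm
  have hcb : c ≠ b := q2
  have hca : c ≠ a := q3
  have hba : b ≠ a := q4
  obtain ⟨φ, hφ, hUφ⟩ := C.side b
  have hU := C.hT.ham b
  obtain ⟨P, hP, p0, p1, p2, p3, -, hcut, -⟩ := split M C.hp C.hb _ hU φ hφ hUφ v 4 (Or.inl rfl)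
    hper (decide_eq_true hcb) (decide_eq_false (not_not.mpr rfl)) (decide_eq_true hba.symm)
    (decide_eq_false (not_not.mpr q1')) (by intro h; omega)
  -- the colour of the legs
  have hleg : ∀ x, M.Face v x → γ (M.s x) ≠ b := by
    intro x hx
    obtain ⟨i, hi, rfl⟩ := face_iter M 4 hper (by norm_num) hx
    have hl := C.leg ((M.f)^[i] v)
    interval_cases i
    · have h1 := hl.2
      have h2 : M.s (M.s ((M.f)^[0] v)) = M.a (t 3) := hss0
      rw [h2, C.hT.acl, q1'] at h1
      exact h1
    · exact hl.1
    · have h1 := hl.2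
      have h2 : M.s (M.s ((M.f)^[2] v)) = M.a (t 1) := hss 1
      rw [h2, C.hT.acl] at h1
      exact h1
    · have h1 := hl.1
      have h2 : γ ((M.f)^[3] v) = b := q1'
      rw [h2] at h1
      exact h1
  have hP1 : P (M.a (t 1)) = true := by
    rw [← hss 1, hP, hP]; exact p2
  have hP3 : P (M.a (t 3)) = false := by
    rw [← hss0, hP, hP]; exact p0
  -- a face with corners on both sides meets `v`
  have hadj : ∀ w x y, M.Face w x → M.Face w y → P x = true → P y = false → ¬ NonAdj M v w := by
    intro w x y hx hy hPx hPy hNA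
    have h1 := intl_of_cross M _ hU v w P hP hcut x y hx hy hPx hPy
    rw [C.iff (a := b) (b := a) (c := c) hba hcb.symm hca.symm hper (by norm_num) (by norm_num)
      hNA 0 (by
        intro i hi hi0
        interval_cases i
        · exact absurd rfl hi0
        · exact hcb.symm
        · exact hca.symm
        · rw [show γ ((M.f)^[3] v) = b from q1']; exact hcb.symm)] at h1
    refine not_intl_one M _ (C.hT.ham a) v w 4 hper (by norm_num) 2 ?_ hNA h1
    intro i hi hi2
    interval_cases i
    · exact decide_eq_true hca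
    · exact decide_eq_true hba
    · exact absurd rfl hi2
    · have : γ ((M.f)^[3] v) ≠ a := by
        rw [show γ ((M.f)^[3] v) = b from q1']; exact hba
      exact decide_eq_true this
  -- no chord crosses
  have hch : ∀ e, γ e = b → P e = true → P (M.a e) = false → False := by
    intro e he hPe hPae
    have hfe : P (M.f e) = false := by
      have : P (M.f e) = P (M.a e) := hP _
      rw [this, hPae]
    have hse : P (M.s e) = true := by rw [hP, hPe]
    have k1 := adj_cases M (hadj e e (M.f e) (face_refl M e) (face_f M e) hPe hfe)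
    have k2 := adj_cases M (hadj (M.a e) (M.s e) (M.a e) (face_as M e) (face_refl M _) hse hPae)
    rcases k1 with k1 | ⟨x, hx, k1⟩
    · obtain ⟨i, hi, hie⟩ := face_iter M 4 hper (by norm_num) (face_symm M k1)
      interval_cases i
      · apply hcb
        rw [← he, ← hie]; rfl
      · rw [← hie] at hPae
        have : P (M.a ((M.f)^[1] v)) = true := hP1
        rw [this] at hPae
        exact Bool.noConfusion hPae
      · apply hba
        rw [← he, ← hie]
      · rw [← hie, p3] at hPe
        exact Bool.noConfusion hPe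
    rcases k2 with k2 | ⟨y, hy, k2⟩
    · obtain ⟨i, hi, hie⟩ := face_iter M 4 hper (by norm_num) (face_symm M k2)
      have he' : γ (M.a e) = b := by rw [C.hT.acl, he]
      interval_cases i
      · apply hcb
        rw [← he', ← hie]; rfl
      · rw [← hie] at hPae
        have : P ((M.f)^[1] v) = true := p1
        rw [this] at hPae
        exact Bool.noConfusion hPae
      · apply hba
        rw [← he', ← hie]
      · have h5 : e = M.a (t 3) := by
          have : t 3 = M.a e := hie
          rw [this, M.a2]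
        rw [h5, hP3] at hPe
        exact Bool.noConfusion hPe
    · rcases two_nb M C.hp C.h4 C.hb (face_trans M (face_symm M hx) hy) k1 k2 with
        ⟨h1, h2⟩ | ⟨h1, h2⟩
      · apply hleg y hy
        rw [← he, h2, C.hT.acl]
      · apply hleg x hx
        rw [← he, h2]
  -- count
  have hbd := C.c3 P hP ⟨_, p1⟩ ⟨_, p0⟩
  have hfin : Finite {d : D // P d = true ∧ P (M.a d) = false} := inferInstance
  have hle : M.bd P ≤ 2 := by
    unfold CMap.bd
    have hinj : Function.Injective
        (fun x : {d : D // P d = true ∧ P (M.a d) = false} =>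
          (if x.1 = M.a v then (0 : Fin 2) else 1)) := by
      intro x y hxy
      have hx : x.1 = M.a v ∨ x.1 = (M.f)^[2] v := by
        apply hcut x.1 _ x.2.1 x.2.2
        by_contra hcon
        have : γ x.1 = b := by simpa using hcon
        exact hch x.1 this x.2.1 x.2.2
      have hy : y.1 = M.a v ∨ y.1 = (M.f)^[2] v := by
        apply hcut y.1 _ y.2.1 y.2.2
        by_contra hcon
        have : γ y.1 = b := by simpa using hcon
        exact hch y.1 this y.2.1 y.2.2
      apply Subtype.ext
      simp only at hxy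
      by_cases h1 : x.1 = M.a v
      · by_cases h2 : y.1 = M.a v
        · rw [h1, h2]
        · simp [h1, h2] at hxy
      · by_cases h2 : y.1 = M.a v
        · simp [h1, h2] at hxy
        · rw [hx.resolve_left h1, hy.resolve_left h2]
    have := Nat.card_le_card_of_injective _ hinj
    simpa using this
  omega

end Pool.Agent.Helper80.CA
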