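import Pool.Agent.Helper17.CT.Defs

set_option autoImplicit false

/-!
Project Cantoni (MP_16e137_co), block B (deduction), module CB-2: the faces on the side of a
Hamilton cycle `U` opposite to the chord `k` have the same value of `ψ`, if `∂ψ = Z` is contained in
`U` plus the edge of `k`.

PROOF. Facts at a vertex: `ψ (s x) = ψ (a x)` for all `x` (because `M.f (M.a x) = M.s x`), and the
same for `φ`. So for the three darts `c, s c, s s c`: `ψ (s c) = ψ (a c)`, `ψ (s s c) = ψ (a (s c))`,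
`ψ c = ψ (a (s s c))`; the same for `φ`.
`φ (a k) = φ k` because `U k = false`.
For `x` in `U` (then `φ (a x) ≠ φ x`) let `Θ x := if φ x = φ k then ψ (a x) else ψ x` (the value of
`ψ` on the side with `φ ≠ φ k`). Claim: `Θ` is constant on `U`: by `hU.conn` it is enough to look at
one `Step` inside `U`.
* `y = a x`: clear, as `φ (a x) ≠ φ x` (Booleans) and `a (a x) = x`.
* `y` and `x` at the same vertex, both in `U`, `x ≠ y`: let `c` be the third dart, `U c = false` by
  `hU.one`; so `{x, y} = {s c, s s c}`. We have `φ (s c) = φ (a c) = φ c`, `φ (s s c) ≠ φ (s c)`.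
  - if `φ c = φ k`: `Θ (s c) = ψ (a (s c)) = ψ (s s c)` and `Θ (s s c) = ψ (s s c)`.
  - if `φ c ≠ φ k`: `c ≠ k`, `c ≠ a k`, so `Z c = false` (by `hZ`, `U c = false`), hence
    `ψ c = ψ (a c) = ψ (s c)`. Now `Θ (s c) = ψ (s c)`; `φ (s s c) = φ k` so
    `Θ (s s c) = ψ (a (s s c)) = ψ c = ψ (s c)`.
For `d` with `φ d ≠ φ k` there is `x` in `U` with `Θ x = ψ d`: if `U d` take `x = d`. Otherwise
`U (s s d) = true` (`hU.one`); take `x = s s d`: `φ (a x) = φ d ≠ φ k`, so `φ x = φ k` and
`Θ x = ψ (a x) = ψ d`.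
-/

namespace Pool.Agent.Helper80.CA
open Pool.Agent.Helper17.CT

variable {D : Type} (M : CMap D)

theorem opp_const (U : D → Bool) (hU : M.IsHam U) (φ : D → Bool) (hφ : ∀ d, φ (M.f d) = φ d)
    (hUφ : ∀ d, U d = (φ d ^^ φ (M.a d))) (Z ψ : D → Bool) (hψ : ∀ d, ψ (M.f d) = ψ d)
    (hZψ : ∀ d, Z d = (ψ d ^^ ψ (M.a d))) (k : D) (hk : U k = false)
    (hZ : ∀ d, Z d = true → U d = true ∨ d = k ∨ d = M.a k)
    (d d' : D) (hd : φ d ≠ φ k) (hd' : φ d' ≠ φ k) : ψ d = ψ d' := by
  have hfa : ∀ x, M.f (M.a x) = M.s x := fun x => by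
    unfold CMap.f
    rw [M.a2]
  have sψ : ∀ x, ψ (M.s x) = ψ (M.a x) := fun x => by
    have h := hψ (M.a x)
    rwa [hfa] at h
  have sφ : ∀ x, φ (M.s x) = φ (M.a x) := fun x => by
    have h := hφ (M.a x)
    rwa [hfa] at h
  have bne : ∀ p q r : Bool, p ≠ q → r ≠ q → p = r := by decide
  have Utrue : ∀ x, U x = true → φ x ≠ φ (M.a x) := by
    intro x hx h
    rw [hUφ, h, Bool.xor_self] at hx
    exact absurd hx (by decide)
  have Ufalse : ∀ x, U x = false → φ x = φ (M.a x) := by
    intro x hx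
    rw [hUφ] at hx
    revert hx
    cases φ x <;> cases φ (M.a x) <;> decide
  have Zfalse : ∀ x, Z x = false → ψ x = ψ (M.a x) := by
    intro x hx
    rw [hZψ] at hx
    revert hx
    cases ψ x <;> cases ψ (M.a x) <;> decide
  let Θ : D → Bool := fun x => if φ x = φ k then ψ (M.a x) else ψ x
  have Θ1 : ∀ x, φ x = φ k → Θ x = ψ (M.a x) := fun x hx => if_pos hx
  have Θ2 : ∀ x, φ x ≠ φ k → Θ x = ψ x := fun x hx => if_neg hx
  have hone2 : ∀ x, U x = false → U (M.s x) = true ∧ U (M.s (M.s x)) = true := by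
    intro x hx
    rcases hU.one x with ⟨-, h2, h3⟩ | ⟨h1, -, -⟩ | ⟨h1, -, -⟩
    · exact ⟨h2, h3⟩
    · rw [hx] at h1
      exact absurd h1 (by decide)
    · rw [hx] at h1
      exact absurd h1 (by decide)
  -- the claim at a vertex
  have key : ∀ c, U c = false → Θ (M.s c) = Θ (M.s (M.s c)) := by
    intro c hc
    obtain ⟨h1, h2⟩ := hone2 c hc
    have e1 : φ (M.s c) = φ c := (sφ c).trans (Ufalse c hc).symm
    have e2 : φ (M.s (M.s c)) ≠ φ (M.s c) := by
      rw [sφ (M.s c)]
      exact (Utrue _ h1).symm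
    by_cases hck : φ c = φ k
    · rw [Θ1 _ (e1.trans hck), Θ2 _ (by rw [e1, hck] at e2; exact e2), sψ (M.s c)]
    · have hZc : Z c = false := by
        by_contra hne
        have hZt : Z c = true := by
          cases hz : Z c
          · exact absurd hz hne
          · rfl
        rcases hZ c hZt with h | h | h
        · rw [hc] at h
          exact absurd h (by decide)
        · exact hck (by rw [h])
        · exact hck (by rw [h, ← Ufalse k hk])
      have e3 : φ (M.s (M.s c)) = φ k := bne _ _ _ e2 (fun h => hck (by rw [← e1, h]))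
      rw [Θ2 _ (by rw [e1]; exact hck), Θ1 _ e3, sψ c, ← Zfalse c hZc, ← sψ (M.s (M.s c)), M.s3]
  have hstep : ∀ x y, Step M.s M.a U x y → Θ x = Θ y := by
    rintro x y ⟨hx, hy, h | h | h⟩
    · rw [h]
      have h1 := Utrue x hx
      by_cases hxk : φ x = φ k
      · rw [Θ1 _ hxk, Θ2 _ (fun h2 => h1 (hxk.trans h2.symm))]
      · have h2 : φ (M.a x) = φ k := bne _ (φ x) _ h1.symm (fun h3 => hxk h3.symm)
        rw [Θ2 _ hxk, Θ1 _ h2, M.a2]
    · rw [h]
      rw [h] at hy
      have hc : U (M.s (M.s x)) = false := by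
        rcases hU.one x with ⟨h1, -, -⟩ | ⟨-, h1, -⟩ | ⟨-, -, h1⟩
        · rw [hx] at h1
          exact absurd h1 (by decide)
        · rw [hy] at h1
          exact absurd h1 (by decide)
        · exact h1
      have h2 := key _ hc
      rwa [M.s3] at h2
    · rw [h]
      rw [h] at hy
      have hc : U (M.s x) = false := by
        rcases hU.one x with ⟨h1, -, -⟩ | ⟨-, h1, -⟩ | ⟨-, -, h1⟩
        · rw [hx] at h1
          exact absurd h1 (by decide)
        · exact h1
        · rw [hy] at h1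
          exact absurd h1 (by decide)
      have h2 := key _ hc
      rw [M.s3] at h2
      exact h2.symm
  have hconn : ∀ x y, Conn M.s M.a U x y → Θ x = Θ y := by
    intro x y h
    induction h with
    | refl => rfl
    | tail _ h2 ih => exact ih.trans (hstep _ _ h2)
  have hex : ∀ d, φ d ≠ φ k → ∃ x, U x = true ∧ Θ x = ψ d := by
    intro d hd
    by_cases hUd : U d = true
    · exact ⟨d, hUd, Θ2 _ hd⟩
    · have hUd' : U d = false := by
        cases h : U d
        · rfl
        · exact absurd h hUd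
      refine ⟨M.s (M.s d), (hone2 d hUd').2, ?_⟩
      have h1 := Utrue _ (hone2 d hUd').2
      rw [← sφ (M.s (M.s d)), M.s3] at h1
      have h2 : φ (M.s (M.s d)) = φ k := bne _ (φ d) _ h1 hd.symm
      rw [Θ1 _ h2, ← sψ (M.s (M.s d)), M.s3]
  obtain ⟨x, hx, hx'⟩ := hex d hd
  obtain ⟨y, hy, hy'⟩ := hex d' hd'
  rw [← hx', ← hy']
  exact hconn _ _ (hU.conn x y hx hy)

end Pool.Agent.Helper80.CA
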