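import Pool.Agent.Helper80.CA.Fund
import Pool.Agent.Helper80.CA.Opp
import Pool.Agent.Helper63.CT.M10

set_option autoImplicit false

/-!
Project Cantoni (MP_16e137_co), block B (deduction), module CB-3: the splitting of the vertices by a
Hamilton cycle which misses exactly two edges of a face of length 4 or 5.

Notation `t i = f^[i] v0` (darts of the face `v`), `c_i` = vertex of `t i`. Since
`t (i+1) = s (a (t i))` we have `s (s (t (i+1))) = a (t i)`: the three darts at `c_(i+1)` are
`t (i+1)`, the leg `s (t (i+1))` and `a (t i)`. `U` misses `t 1` and `t 3`, and contains `t 0`, `t 2`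
(and `t 4` if `n = 5`).

PROOF. `k := t 1`, `U k = false`. Take `Z0` from `fund_cycle`; `Z := Z0` if `Z0 v0 = false`, else
`Z d := Z0 d ^^ U d` (again even by `even_of_ham`; `Z k = true`, support in `U ∪ {k, a k}`). So
`Z (t 0) = false`, `Z (t 1) = true`. `hp` gives `ψ` with `Z = ∂ψ`. `φ k = φ v0` (same face).
(i) For darts `x, x'` of `U` with `φ x = φ v0 = φ x'` on the same face (`M.Face x x'`):
`Z x = Z x'`. [`Z x = ψ x ^^ ψ (a x)`, `ψ x = ψ x'` by `face_eq`, and `ψ (a x) = ψ (a x')` by
`opp_const`, because `φ (a x) ≠ φ x`.] Hence `Z (t 2) = false`, and `Z (t 4) = false` if `n = 5`.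
`Z (t 3) = false`, `Z (a (t 3)) = false`: `U (t 3) = false` and `t 3 ≠ t 1` (minimal period `n ≥ 4`),
`t 3 ≠ a (t 1)` (`hb`, since `t 3` is on the face of `t 1`).
`P d := Z d || Z (s d) || Z (s (s d))`. Evenness of `Z`: at every vertex `Z` has 0 or 2 darts.
* `P (t 1)`: `Z (t 1)`. `P (t 2)`: `s (s (t 2)) = a (t 1)`.
* `P (t 0) = false`: `Z (t 0) = false`; `s (s (t 0)) = a (t (n-1))` (as `t 0 = t n`), and
  `Z (a (t (n-1))) = Z (t (n-1)) = false` for `n = 4` and for `n = 5`; the third by evenness.
* `P (t 3) = false`: `Z (t 3)`, `Z (s (s (t 3))) = Z (a (t 2))` are false.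
* `n = 5`: `P (t 4) = false`: `Z (t 4)` and `Z (a (t 3))` are false.
(ii) If `U d`, `P d` and `Z d = false`, then (evenness) `Z (s d) = Z (s s d) = true`, and by `hU.one`
one of `s d`, `s s d` is not in `U`, so it is `k` or `a k`. If it is `k = t 1`: `d` is `s (t 1)` or
`s (s (t 1)) = a (t 0)`; for `d = s (t 1)` the other dart is `a (t 0)` with `Z = false`, contradiction;
so `d = a v0`. If it is `a k = s (s (t 2))`: `d` is `t 2` or `s (t 2)`; for `d = s (t 2)` the other
dart is `t 2` with `Z = false`, contradiction; so `d = t 2`.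
(S2): `U d`, `P d`, `P (a d) = false` imply `Z d = false` (otherwise `Z (a d)`, `P (a d)`); (ii).
(S3): let `d` be a dart with `φ d = φ v0` not at a corner of `v`. If `U d` put `x = d`, else
`U (s (s d))`, put `x = a (s (s d))`; then `M.Face x d` or `M.Face d x` (`f (a (s (s d))) = d`), `U x`,
`φ x = φ v0`, and `P d = Z x`: `Z x = true` gives `P d = true`; `P d = true` and `Z x = false` give by
(ii) applied to `d` resp. `s (s d)` (at the same vertex as `d`, `P` is constant there) that this dart
is `a v0` or `t 2`, which is at the corner `c_1` or `c_2` of `v`: contradiction. So (i) gives (S3).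
Use `face_symm`, `face_trans`, `face_eq` of `Helper63/CT/M10.lean`.
-/

namespace Pool.Agent.Helper80.CA
open Pool.Agent.Helper17.CT Function

variable {D : Type} (M : CMap D)

theorem split [Finite D] (hp : M.Planar) (hb : ∀ d, ¬ M.Face d (M.a d)) (U : D → Bool)
    (hU : M.IsHam U) (φ : D → Bool)
    (hφ : ∀ d, φ (M.f d) = φ d) (hUφ : ∀ d, U d = (φ d ^^ φ (M.a d))) (v0 : D) (n : ℕ)
    (hn : n = 4 ∨ n = 5) (hper : minimalPeriod M.f v0 = n) (h0 : U v0 = true)
    (h1 : U (M.f v0) = false) (h2 : U ((M.f)^[2] v0) = true) (h3 : U ((M.f)^[3] v0) = false)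
    (h4 : n = 5 → U ((M.f)^[4] v0) = true) :
    ∃ P : D → Bool, M.VSet P ∧ P v0 = false ∧ P (M.f v0) = true ∧ P ((M.f)^[2] v0) = true ∧
      P ((M.f)^[3] v0) = false ∧ (n = 5 → P ((M.f)^[4] v0) = false) ∧
      (∀ d, U d = true → P d = true → P (M.a d) = false → d = M.a v0 ∨ d = (M.f)^[2] v0) ∧
      (∀ d d', M.Face d d' → φ d = φ v0 → (∀ i, ¬ M.VEq ((M.f)^[i] v0) d) →
        (∀ i, ¬ M.VEq ((M.f)^[i] v0) d') → P d = P d') := by
  classical
  -- the even set
  have hmax : ∃ Z : D → Bool, M.Even Z ∧ Z (M.f v0) = true ∧ Z v0 = false ∧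
      ∀ d, Z d = true → U d = true ∨ d = M.f v0 ∨ d = M.a (M.f v0) := by
    obtain ⟨Z0, hE, hk, hsupp⟩ := fund_cycle M U hU (M.f v0) h1
    by_cases hv : Z0 v0 = false
    · exact ⟨Z0, hE, hk, hv, hsupp⟩
    · have hv' : Z0 v0 = true := by simpa using hv
      have hE' := even_of_ham M U hU
      refine ⟨fun d => (Z0 d ^^ U d), ⟨fun d => ?_, fun d => ?_⟩, ?_, ?_, ?_⟩
      · show (Z0 (M.a d) ^^ U (M.a d)) = (Z0 d ^^ U d)
        rw [hE.1, hE'.1]
      · have e1 := hE.2 d
        have e2 := hE'.2 d
        show ((Z0 d ^^ U d) ^^ (Z0 (M.s d) ^^ U (M.s d)) ^^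
          (Z0 (M.s (M.s d)) ^^ U (M.s (M.s d)))) = false
        generalize Z0 d = b1 at *
        generalize Z0 (M.s d) = b2 at *
        generalize Z0 (M.s (M.s d)) = b3 at *
        generalize U d = c1 at *
        generalize U (M.s d) = c2 at *
        generalize U (M.s (M.s d)) = c3 at *
        clear * - e1 e2
        revert b1 b2 b3 c1 c2 c3
        decide
      · show (Z0 (M.f v0) ^^ U (M.f v0)) = true
        rw [hk, h1]; rfl
      · show (Z0 v0 ^^ U v0) = false
        rw [hv', h0]; rfl
      · intro d hd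
        by_cases hUd : U d = true
        · exact Or.inl hUd
        · have hUd' : U d = false := by simpa using hUd
          apply hsupp
          have hd' : (Z0 d ^^ U d) = true := hd
          rw [hUd', Bool.xor_false] at hd'
          exact hd'
  obtain ⟨Z, hE, hZk, hZ0, hsupp⟩ := hmax
  obtain ⟨ψ, hψ, hZψ⟩ := hp Z hE
  have hφk : φ (M.f v0) = φ v0 := hφ v0
  have hφt : ∀ i, φ ((M.f)^[i] v0) = φ v0 := fun i => (face_eq M hφ ⟨i, rfl⟩).symm
  -- (i)
  have hI : ∀ x x', U x = true → U x' = true → φ x = φ v0 → φ x' = φ v0 → M.Face x x' →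
      Z x = Z x' := by
    intro x x' hx hx' hφx hφx' hf
    have e1 : φ (M.a x) ≠ φ (M.f v0) := by
      rw [hφk]
      have := hUφ x
      rw [hx, hφx] at this
      intro e
      rw [e] at this
      simp at this
    have e2 : φ (M.a x') ≠ φ (M.f v0) := by
      rw [hφk]
      have := hUφ x'
      rw [hx', hφx'] at this
      intro e
      rw [e] at this
      simp at this
    rw [hZψ x, hZψ x', face_eq M hψ hf,
      opp_const M U hU φ hφ hUφ Z ψ hψ hZψ (M.f v0) h1 hsupp _ _ e1 e2]
  have hZt : ∀ i, U ((M.f)^[i] v0) = true → Z ((M.f)^[i] v0) = false := by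
    intro i hi
    rw [← hI v0 _ h0 hi rfl (hφt i) ⟨i, rfl⟩]
    exact hZ0
  have ssf : ∀ x, M.s (M.s (M.f x)) = M.a x := by
    intro x
    show M.s (M.s (M.s (M.a x))) = M.a x
    rw [M.s3]
  have t3 : (M.f)^[3] v0 = M.f ((M.f)^[2] v0) := rfl
  have t2 : (M.f)^[2] v0 = M.f (M.f v0) := rfl
  have hZ3 : Z ((M.f)^[3] v0) = false := by
    by_contra hne
    rcases hsupp _ (by simpa using hne) with h | h | h
    · exact absurd (h3.symm.trans h) (by decide)
    · have e : (M.f)^[2] v0 = v0 := ct10_f_inj M h
      have : minimalPeriod M.f v0 ∣ 2 := IsPeriodicPt.minimalPeriod_dvd e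
      have := Nat.le_of_dvd (by norm_num) this
      omega
    · exact hb (M.f v0) ⟨2, h⟩
  -- P
  let P : D → Bool := fun d => (Z d || Z (M.s d) || Z (M.s (M.s d)))
  have hPV : M.VSet P := by
    intro d
    show (Z (M.s d) || Z (M.s (M.s d)) || Z (M.s (M.s (M.s d)))) =
      (Z d || Z (M.s d) || Z (M.s (M.s d)))
    rw [M.s3]
    cases Z d <;> cases Z (M.s d) <;> cases Z (M.s (M.s d)) <;> rfl
  have hPt : ∀ d, Z d = true → P d = true := by
    intro d hd
    show (Z d || Z (M.s d) || Z (M.s (M.s d))) = true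
    rw [hd]; rfl
  have hPf : ∀ d, Z d = false → Z (M.s (M.s d)) = false → P d = false := by
    intro d e1 e2
    have e3 := hE.2 d
    show (Z d || Z (M.s d) || Z (M.s (M.s d))) = false
    rw [e1, e2] at e3 ⊢
    cases hh : Z (M.s d)
    · rfl
    · rw [hh] at e3; exact absurd e3 (by decide)
  -- (ii)
  have hii : ∀ d, U d = true → P d = true → Z d = false → d = M.a v0 ∨ d = (M.f)^[2] v0 := by
    intro d hUd hPd hZd
    have e3 := hE.2 d
    have hPd' : (Z d || Z (M.s d) || Z (M.s (M.s d))) = true := hPd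
    rw [hZd] at e3 hPd'
    have hz1 : Z (M.s d) = true ∧ Z (M.s (M.s d)) = true := by
      revert e3 hPd'
      cases Z (M.s d) <;> cases Z (M.s (M.s d)) <;> simp
    obtain ⟨z1, z2⟩ := hz1
    have hcase : U (M.s d) = false ∨ U (M.s (M.s d)) = false := by
      rcases hU.one d with ⟨g1, g2, g3⟩ | ⟨g1, g2, g3⟩ | ⟨g1, g2, g3⟩
      · rw [hUd] at g1; exact absurd g1 (by decide)
      · exact Or.inl g2
      · exact Or.inr g3
    have ak : M.a (M.f v0) = M.s (M.s ((M.f)^[2] v0)) := (ssf _).symm
    rcases hcase with h | h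
    · rcases hsupp _ z1 with g | g | g
      · rw [h] at g; exact absurd g (by decide)
      · left
        rw [← ssf v0, ← g, M.s3]
      · exfalso
        rw [ak] at g
        have g' : d = M.s ((M.f)^[2] v0) := ct10_s_inj M g
        rw [g', M.s3, hZt 2 h2] at z2
        exact absurd z2 (by decide)
    · rcases hsupp _ z2 with g | g | g
      · rw [h] at g; exact absurd g (by decide)
      · exfalso
        have g' : d = M.s (M.f v0) := by rw [← g, M.s3]
        rw [g', ssf, hE.1, hZ0] at z1
        exact absurd z1 (by decide)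
      · right
        rw [ak] at g
        exact ct10_s_inj M (ct10_s_inj M g)
  refine ⟨P, hPV, ?_, hPt _ hZk, ?_, ?_, ?_, ?_, ?_⟩
  · -- P v0
    apply hPf _ hZ0
    rcases hn with hn | hn
    · have e : M.f ((M.f)^[3] v0) = v0 := by
        have := isPeriodicPt_minimalPeriod M.f v0
        rw [hper, hn] at this
        exact this
      rw [← e, ssf, hE.1]
      exact hZ3
    · have e : M.f ((M.f)^[4] v0) = v0 := by
        have := isPeriodicPt_minimalPeriod M.f v0
        rw [hper, hn] at this
        exact this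
      rw [← e, ssf, hE.1]
      exact hZt 4 (h4 hn)
  · rw [t2]
    show (Z _ || Z _ || Z (M.s (M.s (M.f (M.f v0))))) = true
    rw [ssf, hE.1, hZk, Bool.or_true]
  · apply hPf _ hZ3
    rw [t3, ssf, hE.1]
    exact hZt 2 h2
  · intro hn5
    apply hPf _ (hZt 4 (h4 hn5))
    show Z (M.s (M.s (M.f ((M.f)^[3] v0)))) = false
    rw [ssf, hE.1]
    exact hZ3
  · intro d hUd hPd hPad
    apply hii d hUd hPd
    by_contra hne
    have hZd : Z d = true := by simpa using hne
    have := hPt (M.a d) (by rw [hE.1]; exact hZd)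
    rw [this] at hPad
    exact absurd hPad (by decide)
  · have key : ∀ d, φ d = φ v0 → (∀ i, ¬ M.VEq ((M.f)^[i] v0) d) →
        ∃ x, U x = true ∧ φ x = φ v0 ∧ M.Face x d ∧ P d = Z x := by
      intro d hd hc
      by_cases hUd : U d = true
      · refine ⟨d, hUd, hd, ⟨0, rfl⟩, ?_⟩
        by_cases hZd : Z d = true
        · rw [hZd, hPt d hZd]
        · have hZd' : Z d = false := by simpa using hZd
          rw [hZd']
          by_contra hne
          rcases hii d hUd (by simpa using hne) hZd' with g | g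
          · apply hc 1
            right; right
            show d = M.s (M.s (M.f v0))
            rw [ssf]; exact g
          · exact hc 2 (Or.inl g)
      · have hUd' : U d = false := by simpa using hUd
        have hUs : U (M.s (M.s d)) = true := by
          rcases hU.one d with ⟨g1, g2, g3⟩ | ⟨g1, g2, g3⟩ | ⟨g1, g2, g3⟩
          · exact g3
          · exact absurd g1 hUd
          · exact absurd g1 hUd
        have hfx : M.f (M.a (M.s (M.s d))) = d := by
          show M.s (M.a (M.a (M.s (M.s d)))) = d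
          rw [M.a2, M.s3]
        have hPs : P (M.s (M.s d)) = P d := by rw [hPV, hPV]
        refine ⟨M.a (M.s (M.s d)), by rw [hU.acl]; exact hUs, ?_, ⟨1, hfx⟩, ?_⟩
        · rw [← hφ, hfx]; exact hd
        · rw [hE.1]
          by_cases hZd : Z (M.s (M.s d)) = true
          · rw [hZd, ← hPs, hPt _ hZd]
          · have hZd' : Z (M.s (M.s d)) = false := by simpa using hZd
            rw [hZd']
            by_contra hne
            rcases hii _ hUs (by rw [hPs]; simpa using hne) hZd' with g | g
            · apply hc 1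
              left
              show d = M.f v0
              rw [← ssf] at g
              exact ct10_s_inj M (ct10_s_inj M g)
            · apply hc 2
              right; left
              rw [← g, M.s3]
    intro d d' hf hd hc hc'
    have hd' : φ d' = φ v0 := by rw [← face_eq M hφ hf]; exact hd
    obtain ⟨x, x1, x2, x3, x4⟩ := key d hd hc
    obtain ⟨y, y1, y2, y3, y4⟩ := key d' hd' hc'
    rw [x4, y4]
    exact hI x y x1 y1 x2 y2 (face_trans M x3 (face_trans M hf (face_symm M y3)))

end Pool.Agent.Helper80.CA
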